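import Pool.Agent.Helper36.Frac.Defs

/-!
# The constants (module M5)
-/

open Finset

namespace Helper36.Frac

namespace Cst

/-- the sequence of the bounds for the loads -/
noncomputable def Mm (a : ℕ) (m : ℝ) : ℕ → ℝ
  | 0 => m
  | 1 => m
  | (j + 2) => Real.exp (if j = 0 then 8 * m else (Mm a m (j + 1)) ^ a)

theorem Mm_one (a : ℕ) (m : ℝ) : Mm a m 1 = m := rfl

theorem Mm_two (a : ℕ) (m : ℝ) : Mm a m 2 = Real.exp (8 * m) := by
  show Real.exp (if (0 : ℕ) = 0 then 8 * m else (Mm a m (0 + 1)) ^ a) = _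
  rw [if_pos rfl]

theorem Mm_succ (a : ℕ) (m : ℝ) (j : ℕ) (hj : 2 ≤ j) :
    Mm a m (j + 1) = Real.exp (Mm a m j ^ a) := by
  obtain ⟨k, rfl⟩ : ∃ k, j = k + 2 := ⟨j - 2, by omega⟩
  show Real.exp (if k + 1 = 0 then 8 * m else (Mm a m (k + 1 + 1)) ^ a) = _
  rw [if_neg (by omega)]

section
variable {a : ℕ} {m : ℝ} (ha : 1 ≤ a) (hm : 1 ≤ m) (hexp : ∀ x, m ≤ x → x ^ a ≤ Real.exp x)

include ha hm hexp

theorem Mm_both (j : ℕ) (hj : 1 ≤ j) : m ≤ Mm a m j ∧ Mm a m j ^ a ≤ Mm a m (j + 1) := by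
  induction j, hj using Nat.le_induction with
  | base =>
    refine ⟨le_refl _, ?_⟩
    rw [Mm_one, Mm_two]
    exact (hexp m (le_refl _)).trans (Real.exp_le_exp.2 (by linarith))
  | succ j hj ih =>
    have h1 : m ≤ Mm a m (j + 1) := by
      refine ih.1.trans (le_trans ?_ ih.2)
      exact le_self_pow₀ (hm.trans ih.1) (by omega)
    refine ⟨h1, ?_⟩
    rw [Mm_succ a m (j + 1) (by omega)]
    linarith [Real.add_one_le_exp (Mm a m (j + 1) ^ a)]

theorem Mm_ge (j : ℕ) : m ≤ Mm a m j := by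
  rcases Nat.eq_zero_or_pos j with rfl | h
  · exact le_refl _
  · exact (Mm_both ha hm hexp j h).1

theorem Mm_mono {i j : ℕ} (hi : 1 ≤ i) (hij : i ≤ j) : Mm a m i ≤ Mm a m j := by
  induction j, hij using Nat.le_induction with
  | base => exact le_refl _
  | succ j hj ih =>
    refine ih.trans (le_trans ?_ (Mm_both ha hm hexp j (hi.trans hj)).2)
    exact le_self_pow₀ (hm.trans (Mm_ge ha hm hexp j)) (by omega)

theorem Mm_pow_le {j k : ℕ} (hj : 1 ≤ j) (hk : k ≤ a) : Mm a m j ^ k ≤ Mm a m (j + 1) :=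
  (pow_le_pow_right₀ (hm.trans (Mm_ge ha hm hexp j)) hk).trans (Mm_both ha hm hexp j hj).2

end

/-- the factors of the rates -/
noncomputable def kap (b : ℕ) (M : ℕ → ℝ) (j : ℕ) : ℝ := if j ≤ 1 then 1 else M j ^ b

theorem kap_le {b : ℕ} {M : ℕ → ℝ} {j : ℕ} (h : 1 ≤ M j) : kap b M j ≤ M j ^ b := by
  unfold kap
  split_ifs
  · exact one_le_pow₀ h
  · exact le_refl _

theorem kap_ge {b : ℕ} {M : ℕ → ℝ} {j : ℕ} (h : 1 ≤ M j) : 1 ≤ kap b M j := by
  unfold kap
  split_ifs
  · exact le_refl _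
  · exact one_le_pow₀ h

theorem kap_succ {b : ℕ} {M : ℕ → ℝ} {j : ℕ} (h : 1 ≤ j) : kap b M (j + 1) = M (j + 1) ^ b := by
  unfold kap
  rw [if_neg (by omega)]

/-- the crude bound of the sums -/
theorem sum_bound {s j b : ℕ} {M : ℕ → ℝ} {x K : ℝ} (hjs : j ≤ s) (hx1 : 1 ≤ x) (hx2 : 2 ^ s ≤ x)
    (hx3 : 2 * (s : ℝ) ≤ x) (hK : ∀ i, 1 ≤ i → i < j → kap b M (i + 1) ≤ K) (hK0 : 0 ≤ K) {z : ℝ}
    (hz0 : 0 ≤ z) (hz : z ≤ x + 1) :
    2 * ∑ i ∈ Ico 1 j, kap b M (i + 1) * z ^ (i + 1) ≤ x * (K * x ^ (s + 1)) := by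
  have h1 : ∀ i ∈ Ico 1 j, kap b M (i + 1) * z ^ (i + 1) ≤ K * x ^ (s + 1) := by
    intro i hi
    rw [mem_Ico] at hi
    have h2 : z ^ (i + 1) ≤ x ^ (s + 1) := by
      calc z ^ (i + 1) ≤ (x + 1) ^ (i + 1) := pow_le_pow_left₀ hz0 hz _
        _ ≤ (x + 1) ^ s := pow_le_pow_right₀ (by linarith) (by omega)
        _ ≤ (2 * x) ^ s := pow_le_pow_left₀ (by linarith) (by linarith) _
        _ = 2 ^ s * x ^ s := mul_pow _ _ _
        _ ≤ x * x ^ s := mul_le_mul_of_nonneg_right hx2 (by positivity)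
        _ = x ^ (s + 1) := by ring
    exact mul_le_mul (hK i hi.1 hi.2) h2 (by positivity) hK0
  have h3 := Finset.sum_le_card_nsmul _ _ _ h1
  rw [nsmul_eq_mul, Nat.card_Ico] at h3
  have h4 : ((j - 1 : ℕ) : ℝ) ≤ s := by exact_mod_cast (by omega : j - 1 ≤ s)
  have h5 : 0 ≤ K * x ^ (s + 1) := by positivity
  calc 2 * ∑ i ∈ Ico 1 j, kap b M (i + 1) * z ^ (i + 1)
      ≤ 2 * (((j - 1 : ℕ) : ℝ) * (K * x ^ (s + 1))) := by linarith
    _ ≤ 2 * ((s : ℝ) * (K * x ^ (s + 1))) := by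
        have := mul_le_mul_of_nonneg_right h4 h5
        linarith
    _ = (2 * (s : ℝ)) * (K * x ^ (s + 1)) := by ring
    _ ≤ x * (K * x ^ (s + 1)) := mul_le_mul_of_nonneg_right hx3 h5

section
variable {s : ℕ} {L m : ℝ} (hs : 1 ≤ s) (hL : 0 < L) (hA : 4 * L * Real.exp (3 + 2 * s) ≤ m)
  (h16 : 16 * L ≤ m) (hB1 : (2 : ℝ) ^ s ≤ m) (hB2 : 2 * (s : ℝ) ≤ m) (hB3 : 16 ≤ m)
  (hexp : ∀ x, m ≤ x → x ^ (4 * s + 18) ≤ Real.exp x)

/-- `M` -/
noncomputable def MM (s : ℕ) (m : ℝ) (j : ℕ) : ℝ := Mm (4 * s + 18) m j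

/-- `κ` -/
noncomputable def KK (s : ℕ) (m : ℝ) (j : ℕ) : ℝ := kap (3 * s + 15) (MM s m) j

/-- `β` -/
noncomputable def BB (s : ℕ) (m : ℝ) (j : ℕ) : ℝ := (MM s m j ^ (2 * s + 8))⁻¹

/-- `δ` -/
noncomputable def DD (s : ℕ) (m : ℝ) (j : ℕ) : ℝ := (MM s m j ^ (s + 4))⁻¹

theorem KK_one : KK s m 1 = 1 := by
  unfold KK kap
  rw [if_pos (le_refl _)]

include hB3 hexp in
theorem MM_ge (j : ℕ) : m ≤ MM s m j := Mm_ge (by omega) (by linarith) hexp j

include hB3 hexp in
theorem MM_mono {i j : ℕ} (hi : 1 ≤ i) (hij : i ≤ j) : MM s m i ≤ MM s m j :=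
  Mm_mono (by omega) (by linarith) hexp hi hij

include hB3 hexp in
theorem MM_pow_le {j k : ℕ} (hj : 1 ≤ j) (hk : k ≤ 4 * s + 18) : MM s m j ^ k ≤ MM s m (j + 1) :=
  Mm_pow_le (by omega) (by linarith) hexp hj hk

include hB3 hexp in
theorem KK_mono_le {i j : ℕ} (hi : 1 ≤ i) (hij : i ≤ j) : KK s m i ≤ MM s m j ^ (3 * s + 15) := by
  have h1 : 1 ≤ MM s m i := by linarith [MM_ge hB3 hexp (s := s) i]
  refine (kap_le h1).trans ?_
  exact pow_le_pow_left₀ (by linarith) (MM_mono hB3 hexp hi hij) _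

include hB3 hexp in
theorem KK_le {i j : ℕ} (hi : 1 ≤ i) (hij : i ≤ j) : KK s m i ≤ MM s m (j + 1) :=
  (KK_mono_le hB3 hexp hi hij).trans (MM_pow_le hB3 hexp (hi.trans hij) (by omega))

include hB3 hexp in
theorem DD_ge {j : ℕ} (hj : 1 ≤ j) : (MM s m (j + 1))⁻¹ ≤ DD s m j := by
  have h1 : 0 < MM s m j := by linarith [MM_ge hB3 hexp (s := s) j]
  exact inv_anti₀ (by positivity) (MM_pow_le hB3 hexp hj (by omega))

include hL hA hB1 hB2 hB3 hexp in
/-- the growth step -/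
theorem step {j : ℕ} (hj : 1 ≤ j) (hjs : j ≤ s) :
    4 * L * Real.exp (3 * (MM s m j + 1) + 2 * ∑ i ∈ Ico 1 j, KK s m (i + 1) * (MM s m j + 1) ^ (i + 1)
      + 2 * s) + 1 ≤ MM s m (j + 1) := by
  rcases Nat.eq_or_lt_of_le hj with h | h
  · subst h
    have e1 : MM s m 1 = m := rfl
    have e2 : MM s m (1 + 1) = Real.exp (8 * m) := Mm_two _ _
    rw [e1, e2]
    simp only [Ico_self, sum_empty, mul_zero, add_zero]
    have h1 : Real.exp (3 * (m + 1) + 2 * s) = Real.exp (3 + 2 * s) * Real.exp (3 * m) := by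
      rw [← Real.exp_add]; congr 1; ring
    rw [h1]
    have h2 : m ≤ Real.exp m := by linarith [Real.add_one_le_exp m]
    have h3 : 4 * L * (Real.exp (3 + 2 * s) * Real.exp (3 * m)) ≤ Real.exp (4 * m) := by
      calc 4 * L * (Real.exp (3 + 2 * s) * Real.exp (3 * m))
          = (4 * L * Real.exp (3 + 2 * s)) * Real.exp (3 * m) := by ring
        _ ≤ m * Real.exp (3 * m) := mul_le_mul_of_nonneg_right hA (Real.exp_pos _).le
        _ ≤ Real.exp m * Real.exp (3 * m) := mul_le_mul_of_nonneg_right h2 (Real.exp_pos _).le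
        _ = Real.exp (4 * m) := by rw [← Real.exp_add]; congr 1; ring
    have h4 : Real.exp (4 * m) + 1 ≤ Real.exp (8 * m) := by
      have h5 : Real.exp (8 * m) = Real.exp (4 * m) * Real.exp (4 * m) := by
        rw [← Real.exp_add]; congr 1; ring
      have h6 : 2 ≤ Real.exp (4 * m) := by linarith [Real.add_one_le_exp (4 * m)]
      rw [h5]
      nlinarith
    linarith
  · set y := MM s m j with hy
    have hym : m ≤ y := MM_ge hB3 hexp j
    have hy16 : 16 ≤ y := by linarith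
    have e2 : MM s m (j + 1) = Real.exp (y ^ (4 * s + 18)) := Mm_succ _ _ _ h
    rw [e2]
    have hsum : 2 * ∑ i ∈ Ico 1 j, KK s m (i + 1) * (y + 1) ^ (i + 1) ≤
        y * (y ^ (3 * s + 15) * y ^ (s + 1)) := by
      refine sum_bound hjs (by linarith) (by linarith) (by linarith) ?_ (by positivity)
        (by linarith) (le_refl _)
      intro i hi hij
      exact KK_mono_le hB3 hexp (by omega) (by omega)
    have hsum2 : y * (y ^ (3 * s + 15) * y ^ (s + 1)) = y ^ (4 * s + 17) := by ring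
    rw [hsum2] at hsum
    set Q := 2 * ∑ i ∈ Ico 1 j, KK s m (i + 1) * (y + 1) ^ (i + 1) with hQ
    have h4L : 4 * L ≤ y := by
      have : 1 ≤ Real.exp (3 + 2 * (s : ℝ)) := Real.one_le_exp (by positivity)
      nlinarith
    have hye : y ≤ Real.exp y := by linarith [Real.add_one_le_exp y]
    have hy2 : y ^ 2 ≤ y ^ (4 * s + 17) := pow_le_pow_right₀ (by linarith) (by omega)
    have hE : 3 * (y + 1) + Q + 2 * s + y + 1 ≤ y ^ (4 * s + 18) := by
      have e3 : y ^ (4 * s + 18) = y * y ^ (4 * s + 17) := by ring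
      have h5 : 3 * (y + 1) + 2 * s + y + 1 ≤ y ^ 2 := by nlinarith
      have h6 : 16 * y ^ (4 * s + 17) ≤ y * y ^ (4 * s + 17) :=
        mul_le_mul_of_nonneg_right hy16 (by positivity)
      have h7 : 0 ≤ y ^ (4 * s + 17) := by positivity
      linarith
    calc 4 * L * Real.exp (3 * (y + 1) + Q + 2 * s) + 1
        ≤ Real.exp y * Real.exp (3 * (y + 1) + Q + 2 * s) + 1 := by
          have := mul_le_mul_of_nonneg_right (h4L.trans hye)
            (Real.exp_pos (3 * (y + 1) + Q + 2 * s)).le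
          linarith
      _ = Real.exp (3 * (y + 1) + Q + 2 * s + y) + 1 := by
          rw [← Real.exp_add]; congr 2; ring
      _ ≤ Real.exp (3 * (y + 1) + Q + 2 * s + y + 1) := by
          set t := 3 * (y + 1) + Q + 2 * s + y with ht
          have hQ0 : 0 ≤ Q := by
            rw [hQ]
            refine mul_nonneg (by norm_num) (sum_nonneg fun i hi => mul_nonneg ?_ (by positivity))
            have : 1 ≤ MM s m (i + 1) := by linarith [MM_ge hB3 hexp (s := s) (i + 1)]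
            exact zero_le_one.trans (kap_ge this)
          have ht0 : 0 ≤ t := by positivity
          have h8 : 1 ≤ Real.exp t := Real.one_le_exp ht0
          rw [Real.exp_add t 1]
          have h9 : 2 ≤ Real.exp 1 := by linarith [Real.add_one_le_exp (1 : ℝ)]
          nlinarith
      _ ≤ Real.exp (y ^ (4 * s + 18)) := Real.exp_le_exp.2 hE

include hB3 hexp in
theorem KK_mono {i : ℕ} (hi : 1 ≤ i) (his : i ≤ s) : KK s m i ≤ KK s m s := by
  rcases Nat.eq_or_lt_of_le his with h | h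
  · rw [h]
  · have h1 : KK s m s = MM s m s ^ (3 * s + 15) := if_neg (by omega)
    rw [h1]
    exact KK_mono_le hB3 hexp hi his

include hs hL hA h16 hB1 hB2 hB3 hexp in
/-- the last step -/
theorem last : 16 * L * KK s m s * Real.exp (Bd s (KK s m) (MM s m)) ≤ MM s m (s + 1) := by
  rcases Nat.eq_or_lt_of_le hs with h | h
  · subst h
    have e0 : KK 1 m 1 = 1 := KK_one
    have e1 : MM 1 m 1 = m := rfl
    have e2 : MM 1 m (1 + 1) = Real.exp (8 * m) := Mm_two _ _
    rw [e0, e2]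
    unfold Bd
    rw [e1]
    simp only [Ico_self, sum_empty, mul_zero, add_zero, mul_one]
    have h2 : m ≤ Real.exp m := by linarith [Real.add_one_le_exp m]
    calc 16 * L * Real.exp (3 * m) ≤ Real.exp m * Real.exp (3 * m) :=
          mul_le_mul_of_nonneg_right (h16.trans h2) (Real.exp_pos _).le
      _ = Real.exp (4 * m) := by rw [← Real.exp_add]; congr 1; ring
      _ ≤ Real.exp (8 * m) := Real.exp_le_exp.2 (by linarith)
  · set y := MM s m s with hy
    have hym : m ≤ y := MM_ge hB3 hexp s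
    have hy16 : 16 ≤ y := by linarith
    have e2 : MM s m (s + 1) = Real.exp (y ^ (4 * s + 18)) := Mm_succ _ _ _ h
    have e0 : KK s m s = y ^ (3 * s + 15) := if_neg (by omega)
    have hsum : 2 * ∑ i ∈ Ico 1 s, KK s m (i + 1) * y ^ (i + 1) ≤
        y * (y ^ (3 * s + 15) * y ^ (s + 1)) := by
      refine sum_bound (le_refl _) (by linarith) (by linarith) (by linarith) ?_ (by positivity)
        (by linarith) (by linarith)
      intro i hi hij
      exact KK_mono_le hB3 hexp (by omega) (by omega)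
    have hsum2 : y * (y ^ (3 * s + 15) * y ^ (s + 1)) = y ^ (4 * s + 17) := by ring
    rw [hsum2] at hsum
    unfold Bd
    rw [← hy, e2, e0]
    set Q := 2 * ∑ i ∈ Ico 1 s, KK s m (i + 1) * y ^ (i + 1) with hQ
    have h1 : 16 * L * y ^ (3 * s + 15) ≤ Real.exp (y ^ (3 * s + 16)) := by
      have h2 : 16 * L * y ^ (3 * s + 15) ≤ y * y ^ (3 * s + 15) :=
        mul_le_mul_of_nonneg_right (h16.trans hym) (by positivity)
      have h3 : y * y ^ (3 * s + 15) = y ^ (3 * s + 16) := by ring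
      rw [h3] at h2
      linarith [Real.add_one_le_exp (y ^ (3 * s + 16))]
    have h4 : y ^ (3 * s + 16) ≤ y ^ (4 * s + 17) := pow_le_pow_right₀ (by linarith) (by omega)
    have h5 : y ≤ y ^ (4 * s + 17) := le_self_pow₀ (by linarith) (by omega)
    have h6 : 16 * y ^ (4 * s + 17) ≤ y * y ^ (4 * s + 17) :=
      mul_le_mul_of_nonneg_right hy16 (by positivity)
    have e3 : y ^ (4 * s + 18) = y * y ^ (4 * s + 17) := by ring
    calc 16 * L * y ^ (3 * s + 15) * Real.exp (3 * y + Q)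
        ≤ Real.exp (y ^ (3 * s + 16)) * Real.exp (3 * y + Q) :=
          mul_le_mul_of_nonneg_right h1 (Real.exp_pos _).le
      _ = Real.exp (y ^ (3 * s + 16) + (3 * y + Q)) := (Real.exp_add _ _).symm
      _ ≤ Real.exp (y ^ (4 * s + 18)) := Real.exp_le_exp.2 (by linarith)

include hs hL hA h16 hB1 hB2 hB3 hexp in
/-- the constants satisfy all conditions -/
theorem con : Con s L (KK s m) (BB s m) (DD s m) (MM s m) (MM s m) := by
  have hM : ∀ j, m ≤ MM s m j := fun j => MM_ge hB3 hexp j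
  have hM16 : ∀ j, 16 ≤ MM s m j := fun j => hB3.trans (hM j)
  have hM1 : ∀ j, 1 ≤ MM s m j := fun j => by linarith [hM16 j]
  have hM0 : ∀ j, 0 < MM s m j := fun j => by linarith [hM16 j]
  have hKpos : ∀ j, 0 < KK s m j := fun j => zero_lt_one.trans_le (kap_ge (hM1 j))
  have h4L : 4 * L ≤ m := by linarith
  refine ⟨hL, KK_one, fun i => kap_ge (hM1 i), fun i => by unfold BB; have := hM0 i; positivity,
    fun i => inv_le_one_of_one_le₀ (one_le_pow₀ (hM1 i)), fun j => (hM0 j).le, ?_,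
    fun j => by unfold DD; have := hM0 j; positivity,
    fun j => inv_le_one_of_one_le₀ (one_le_pow₀ (hM1 j)), ?_, ?_, ?_, ?_, ?_, ?_, ?_, ?_, ?_⟩
  · -- cQ
    have h1 : ∀ i ∈ Ico 1 s, 2 * KK s m (i + 1) * BB s m (i + 1) ^ 2 * MM s m (i + 1) ^ i ≤ 1 / s := by
      intro i hi
      rw [mem_Ico] at hi
      have e1 : KK s m (i + 1) = MM s m (i + 1) ^ (3 * s + 15) := if_neg (by omega)
      rw [e1]
      unfold BB
      set x := MM s m (i + 1) with hx
      have hx0 : 0 < x := hM0 _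
      have hx1 : 1 ≤ x := hM1 _
      have h2 : x ^ i ≤ x ^ s := pow_le_pow_right₀ hx1 (by omega)
      have h3 : 2 * x ^ (3 * s + 15) * ((x ^ (2 * s + 8))⁻¹) ^ 2 * x ^ i ≤
          2 * x ^ (3 * s + 15) * ((x ^ (2 * s + 8))⁻¹) ^ 2 * x ^ s :=
        mul_le_mul_of_nonneg_left h2 (by positivity)
      refine h3.trans ?_
      have h4 : 2 * x ^ (3 * s + 15) * ((x ^ (2 * s + 8))⁻¹) ^ 2 * x ^ s = 2 / x := by
        field_simp
        ring
      rw [h4]
      have hs0 : (0 : ℝ) < s := by exact_mod_cast (by omega : 0 < s)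
      rw [div_le_div_iff₀ hx0 hs0]
      linarith [hM (i + 1)]
    refine (Finset.sum_le_card_nsmul _ _ _ h1).trans ?_
    rw [nsmul_eq_mul, Nat.card_Ico]
    have hs0 : (0 : ℝ) < s := by exact_mod_cast (by omega : 0 < s)
    have h4 : ((s - 1 : ℕ) : ℝ) ≤ s := by exact_mod_cast (by omega : s - 1 ≤ s)
    rw [mul_one_div, div_le_one hs0]
    exact h4
  · -- δ2
    intro j hj hjs
    have h1 := DD_ge hB3 hexp (s := s) hj
    have h2 : DD s m (j + 1) ≤ (MM s m (j + 1))⁻¹ / 2 := by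
      unfold DD
      set x := MM s m (j + 1) with hx
      have hx0 : 0 < x := hM0 _
      have hx16 : 16 ≤ x := hM16 _
      rw [show (x⁻¹) / 2 = (x * 2)⁻¹ by rw [mul_inv]; ring]
      refine inv_anti₀ (by positivity) ?_
      calc x * 2 ≤ x * x := by nlinarith
        _ = x ^ 2 := by ring
        _ ≤ x ^ (s + 4) := pow_le_pow_right₀ (by linarith) (by omega)
    linarith
  · -- T1
    intro j hj hjs
    have h1 : 4 * L ≤ Real.exp (MM s m j) := by linarith [Real.add_one_le_exp (MM s m j), hM j]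
    rw [Real.exp_neg, ← div_eq_mul_inv, div_le_one (Real.exp_pos _)]
    exact h1
  · -- Tm
    intro j hj hjs
    exact MM_mono hB3 hexp hj (by omega)
  · -- Tδ
    intro j hj hjs
    have h1 := DD_ge hB3 hexp (s := s) hj
    set x := MM s m (j + 1) with hx
    have hx0 : 0 < x := hM0 _
    have hx16 : 16 ≤ x := hM16 _
    have h2 : 4 * L * Real.exp (-x) ≤ x⁻¹ / 4 := by
      have h3 : x ^ 3 ≤ Real.exp x :=
        (pow_le_pow_right₀ (by linarith) (by omega)).trans (hexp x (hM _))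
      rw [Real.exp_neg, ← div_eq_mul_inv, inv_eq_one_div, div_div, div_le_div_iff₀ (Real.exp_pos _) (by positivity)]
      have h4 : 4 * L ≤ x := h4L.trans (hM _)
      calc 4 * L * (x * 4) ≤ x * (x * 4) := mul_le_mul_of_nonneg_right h4 (by positivity)
        _ ≤ x ^ 3 := by nlinarith [sq_nonneg x]
        _ ≤ 1 * Real.exp x := by rw [one_mul]; exact h3
    linarith
  · -- c2
    intro j hj hjs
    have h1 : KK s m j ≤ MM s m (j + 1) := KK_le hB3 hexp hj (le_refl _)
    unfold DD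
    set x := MM s m (j + 1) with hx
    have hx0 : 0 < x := hM0 _
    have hx16 : 16 ≤ x := hM16 _
    have hxm : m ≤ x := hM _
    have hj1 : (j : ℝ) ≤ s := by exact_mod_cast (by omega : j ≤ s)
    have h2 : (x + 1) ^ (j - 1) ≤ x ^ (s + 1) := by
      calc (x + 1) ^ (j - 1) ≤ (x + 1) ^ s := pow_le_pow_right₀ (by linarith) (by omega)
        _ ≤ (2 * x) ^ s := pow_le_pow_left₀ (by linarith) (by linarith) _
        _ = 2 ^ s * x ^ s := mul_pow _ _ _
        _ ≤ x * x ^ s := mul_le_mul_of_nonneg_right (hB1.trans hxm) (by positivity)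
        _ = x ^ (s + 1) := by ring
    calc (j : ℝ) * (x ^ (s + 4))⁻¹ * (x + 1) ^ (j - 1) * KK s m j
        ≤ (s : ℝ) * (x ^ (s + 4))⁻¹ * x ^ (s + 1) * x := by
          refine mul_le_mul ?_ h1 (hKpos j).le (by positivity)
          refine mul_le_mul ?_ h2 (by positivity) (by positivity)
          exact mul_le_mul_of_nonneg_right hj1 (by positivity)
      _ = s / x ^ 2 := by
          field_simp
          ring
      _ ≤ 1 / 2 := by
          rw [div_le_div_iff₀ (by positivity) (by norm_num)]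
          nlinarith [hB2.trans hxm]
  · -- c3
    intro j hj hjs
    have h1 : KK s m j ≤ MM s m (j + 1) := KK_le hB3 hexp hj (le_refl _)
    have h2 := DD_ge hB3 hexp (s := s) hj
    have e1 : KK s m (j + 1) = MM s m (j + 1) ^ (3 * s + 15) := if_neg (by omega)
    rw [e1]
    set x := MM s m (j + 1) with hx
    have hx0 : 0 < x := hM0 _
    have hx16 : 16 ≤ x := hM16 _
    calc 16 * KK s m j ≤ 16 * x := by linarith
      _ ≤ x * x := by nlinarith
      _ = x⁻¹ * x ^ 3 := by field_simp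
      _ ≤ x⁻¹ * x ^ (3 * s + 15) :=
          mul_le_mul_of_nonneg_left (pow_le_pow_right₀ (by linarith) (by omega)) (by positivity)
      _ ≤ DD s m j * x ^ (3 * s + 15) := mul_le_mul_of_nonneg_right h2 (by positivity)
  · -- c4
    intro j hj hjs
    have h1 : KK s m j ≤ MM s m (j + 1) := KK_le hB3 hexp hj (le_refl _)
    have h2 := DD_ge hB3 hexp (s := s) hj
    have h3 : MM s m j ≤ MM s m (j + 1) := MM_mono hB3 hexp hj (by omega)
    have e1 : KK s m (j + 1) = MM s m (j + 1) ^ (3 * s + 15) := if_neg (by omega)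
    rw [e1]
    unfold BB
    set x := MM s m (j + 1) with hx
    have hx0 : 0 < x := hM0 _
    have hx16 : 16 ≤ x := hM16 _
    have hxm : m ≤ x := hM _
    have hsum : 2 * ∑ i ∈ Ico 1 j, KK s m (i + 1) * (x + 1) ^ (i + 1) ≤ x * (x * x ^ (s + 1)) := by
      refine sum_bound hjs.le (by linarith) (by linarith) (by linarith) ?_ (by positivity)
        (by linarith) (le_refl _)
      intro i hi hij
      exact KK_le hB3 hexp (by omega) (by omega)
    have h5 : 3 * (x + 1) + 2 * s + MM s m j ≤ x ^ 2 := by nlinarith [hB2.trans hxm]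
    have h6 : x ^ 2 ≤ x ^ (s + 3) := pow_le_pow_right₀ (by linarith) (by omega)
    have h7 : x * (x * x ^ (s + 1)) = x ^ (s + 3) := by ring
    have h8 : 3 * (x + 1) + 2 * ∑ i ∈ Ico 1 j, KK s m (i + 1) * (x + 1) ^ (i + 1) + 2 * s + MM s m j ≤
        x ^ (s + 4) := by
      have h9 : x ^ (s + 4) = x * x ^ (s + 3) := by ring
      have h10 : 16 * x ^ (s + 3) ≤ x * x ^ (s + 3) :=
        mul_le_mul_of_nonneg_right hx16 (by positivity)
      have h11 : 0 < x ^ (s + 3) := by positivity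
      linarith
    refine h8.trans ?_
    rw [le_div_iff₀ (mul_pos (by norm_num) (hKpos j))]
    calc x ^ (s + 4) * (16 * KK s m j) ≤ x ^ (s + 4) * (x * x) := by
          refine mul_le_mul_of_nonneg_left ?_ (by positivity)
          exact mul_le_mul hx16 h1 (hKpos j).le hx0.le
      _ = (x ^ (2 * s + 8))⁻¹ * x ^ (3 * s + 15) * x⁻¹ := by
          field_simp
          ring
      _ ≤ (x ^ (2 * s + 8))⁻¹ * x ^ (3 * s + 15) * DD s m j :=
          mul_le_mul_of_nonneg_left h2 (by positivity)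
  · -- c50
    exact hA
  · -- c5
    intro j hj hjs
    exact step hL hA hB1 hB2 hB3 hexp hj hjs.le

end

/-- iterated logarithms tend to infinity -/
theorem tendsto_iter (s : ℕ) : Filter.Tendsto (fun x : ℝ => Real.log^[s] x) Filter.atTop Filter.atTop := by
  induction s with
  | zero => exact Filter.tendsto_id
  | succ s ih =>
    have h : (fun x : ℝ => Real.log^[s + 1] x) = fun x => Real.log (Real.log^[s] x) := by
      funext x
      exact Function.iterate_succ_apply' _ _ _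
    rw [h]
    exact Real.tendsto_log_atTop.comp ih

theorem exp_iter (s : ℕ) : ∀ᶠ x : ℝ in Filter.atTop, Real.exp^[s] (Real.log^[s] x) = x := by
  induction s with
  | zero => exact Filter.Eventually.of_forall fun x => rfl
  | succ s ih =>
    filter_upwards [ih, (tendsto_iter s).eventually_gt_atTop 0] with x h1 h2
    have e1 : Real.log^[s + 1] x = Real.log (Real.log^[s] x) := Function.iterate_succ_apply' _ _ _
    rw [e1, Function.iterate_succ_apply, Real.exp_log h2, h1]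

/-- the tower bound -/
theorem tower {a : ℕ} {m ℓ : ℝ} (ha : 1 ≤ a) (hm : 2 ≤ m) (hexp : ∀ x, m ≤ x → x ^ a ≤ Real.exp x)
    (hℓ : 16 * a * m = ℓ) (j : ℕ) : 2 * a * Mm a m (j + 2) ^ a ≤ Real.exp^[j + 1] ℓ := by
  have ha1 : (1 : ℝ) ≤ a := by exact_mod_cast ha
  induction j with
  | zero =>
    show 2 * a * Mm a m 2 ^ a ≤ Real.exp ℓ
    rw [Mm_two, ← Real.exp_nat_mul]
    have h1 : (a : ℝ) * (8 * m) = ℓ / 2 := by rw [← hℓ]; ring
    have h2 : Real.exp ℓ = Real.exp (ℓ / 2) * Real.exp (ℓ / 2) := by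
      rw [← Real.exp_add]; congr 1; ring
    rw [h1, h2]
    refine mul_le_mul_of_nonneg_right ?_ (Real.exp_pos _).le
    have h3 : 2 * (a : ℝ) ≤ ℓ / 2 := by rw [← hℓ]; nlinarith
    linarith [Real.add_one_le_exp (ℓ / 2)]
  | succ j ih =>
    rw [Function.iterate_succ_apply', Mm_succ a m (j + 2) (by omega), ← Real.exp_nat_mul]
    set Y := Real.exp^[j + 1] ℓ with hY
    have h1 : (a : ℝ) * Mm a m (j + 2) ^ a ≤ Y / 2 := by linarith
    have h2 : Real.exp Y = Real.exp (Y / 2) * Real.exp (Y / 2) := by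
      rw [← Real.exp_add]; congr 1; ring
    rw [h2]
    refine mul_le_mul ?_ (Real.exp_le_exp.2 h1) (Real.exp_pos _).le (Real.exp_pos _).le
    have h3 : 2 ≤ Mm a m (j + 2) ^ a :=
      (hm.trans (Mm_ge ha (by linarith) hexp _)).trans
        (le_self_pow₀ (le_trans (by linarith) (Mm_ge ha (by linarith) hexp _)) (by omega))
    have h4 : 2 * (a : ℝ) ≤ Y / 2 := by nlinarith
    linarith [Real.add_one_le_exp (Y / 2)]

end Cst

open Cst in
theorem const_exists (s : ℕ) (hs : 1 ≤ s) : ∃ C : ℝ, 0 < C ∧ ∃ d0 : ℕ, ∀ d : ℕ, d0 ≤ d →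
    0 < Real.log^[s] (d : ℝ) ∧ ∃ (κ β δ T M : ℕ → ℝ) (qmax : ℝ),
      Con s (Real.log^[s] (d : ℝ) / C) κ β δ T M ∧ 0 ≤ qmax ∧
      4 * (Real.log^[s] (d : ℝ) / C / d) * Real.exp (Bd s κ M) ≤ qmax ∧
      ∀ i, 1 ≤ i → i ≤ s → κ i * qmax ^ i ≤ 1 / 4 := by
  set a : ℕ := 4 * s + 18 with ha
  set A : ℝ := 16 * Real.exp (3 + 2 * s) with hA
  have hA0 : 0 < A := by positivity
  have ha0 : (0 : ℝ) < a := by rw [ha]; positivity
  have h1e : 1 ≤ Real.exp (3 + 2 * (s : ℝ)) := Real.one_le_exp (by positivity)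
  refine ⟨16 * a * A, by positivity, ?_⟩
  obtain ⟨m0, hm0⟩ : ∃ m0 : ℝ, ∀ x, m0 ≤ x → x ^ a ≤ Real.exp x := by
    have h := (Real.tendsto_exp_div_pow_atTop a).eventually_ge_atTop 1
    rw [Filter.eventually_atTop] at h
    obtain ⟨m0, h⟩ := h
    refine ⟨max m0 1, fun x hx => ?_⟩
    have h2 := h x ((le_max_left _ _).trans hx)
    have hx0 : 0 < x := zero_lt_one.trans_le ((le_max_right _ _).trans hx)
    rwa [le_div_iff₀ (by positivity), one_mul] at h2
  set B : ℝ := max m0 (max (2 ^ s) (max (2 * s) 16)) with hB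
  have hcast : Filter.Tendsto (fun n : ℕ => (n : ℝ)) Filter.atTop Filter.atTop :=
    tendsto_natCast_atTop_atTop
  have ev1 := hcast.eventually (exp_iter s)
  have ev2 := hcast.eventually ((tendsto_iter s).eventually_ge_atTop (16 * a * B))
  obtain ⟨d0, hd0⟩ := Filter.eventually_atTop.1 (ev1.and (ev2.and (Filter.eventually_ge_atTop 1)))
  refine ⟨d0, fun d hd => ?_⟩
  obtain ⟨h1, h2, h3⟩ := hd0 d hd
  set ℓ := Real.log^[s] (d : ℝ) with hℓ
  set m := ℓ / (16 * a) with hm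
  have hmB : B ≤ m := by
    rw [hm, le_div_iff₀ (by positivity)]
    linarith
  have hmℓ : 16 * a * m = ℓ := by
    rw [hm]; field_simp
  have hm00 : m0 ≤ m := (le_max_left _ _).trans hmB
  have hm01 : (2 : ℝ) ^ s ≤ m := ((le_max_left _ _).trans (le_max_right _ _)).trans hmB
  have hm02 : 2 * (s : ℝ) ≤ m :=
    ((le_max_left _ _).trans ((le_max_right _ _).trans (le_max_right _ _))).trans hmB
  have hm03 : (16 : ℝ) ≤ m :=
    ((le_max_right _ _).trans ((le_max_right _ _).trans (le_max_right _ _))).trans hmB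
  have hℓ0 : 0 < ℓ := by rw [← hmℓ]; positivity
  have hexp : ∀ x, m ≤ x → x ^ a ≤ Real.exp x := fun x hx => hm0 x (hm00.trans hx)
  set L := ℓ / (16 * a * A) with hL
  have hL0 : 0 < L := by positivity
  have hmA : m = A * L := by rw [hm, hL]; field_simp
  have hLA : 4 * L * Real.exp (3 + 2 * s) ≤ m := by
    rw [hmA, hA]
    nlinarith [mul_pos hL0 (Real.exp_pos (3 + 2 * (s : ℝ)))]
  have hL16 : 16 * L ≤ m := by
    rw [hmA, hA]
    nlinarith
  have hlast := last hs hL0 hLA hL16 hm01 hm02 hm03 hexp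
  have hcon := con hs hL0 hLA hL16 hm01 hm02 hm03 hexp
  have hd0' : (0 : ℝ) < d := by exact_mod_cast h3
  have htop : MM s m (s + 1) ≤ d := by
    obtain ⟨j, rfl⟩ : ∃ j, s = j + 1 := ⟨s - 1, by omega⟩
    have h4 := tower (a := a) (by omega) (by linarith) hexp hmℓ j
    rw [h1] at h4
    have h5 : 1 ≤ MM (j + 1) m (j + 1 + 1) := by
      linarith [MM_ge (s := j + 1) hm03 hexp (j + 1 + 1)]
    have h6 : MM (j + 1) m (j + 1 + 1) ≤ MM (j + 1) m (j + 1 + 1) ^ a := le_self_pow₀ h5 (by omega)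
    have h7 : (1 : ℝ) ≤ a := by exact_mod_cast (by omega : 1 ≤ a)
    have h8 : MM (j + 1) m (j + 1 + 1) ^ a ≤ 2 * a * MM (j + 1) m (j + 1 + 1) ^ a := by
      have : 0 < MM (j + 1) m (j + 1 + 1) ^ a := by positivity
      nlinarith
    exact h6.trans (h8.trans h4)
  have hKpos : 0 < KK s m s := by
    have : 1 ≤ MM s m s := by linarith [MM_ge (s := s) hm03 hexp s]
    exact zero_lt_one.trans_le (kap_ge this)
  have hKge : 1 ≤ KK s m s := by
    have : 1 ≤ MM s m s := by linarith [MM_ge (s := s) hm03 hexp s]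
    exact kap_ge this
  refine ⟨hℓ0, KK s m, BB s m, DD s m, MM s m, MM s m, 1 / (4 * KK s m s), hcon, by positivity, ?_, ?_⟩
  · rw [le_div_iff₀ (by positivity)]
    have h5 : 16 * L * KK s m s * Real.exp (Bd s (KK s m) (MM s m)) ≤ d := hlast.trans htop
    calc 4 * (L / d) * Real.exp (Bd s (KK s m) (MM s m)) * (4 * KK s m s)
        = (16 * L * KK s m s * Real.exp (Bd s (KK s m) (MM s m))) / d := by ring
      _ ≤ 1 := by rw [div_le_one hd0']; exact h5
  · intro i hi his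
    have h6 : KK s m i ≤ KK s m s := KK_mono hm03 hexp hi his
    have h7 : (1 / (4 * KK s m s)) ^ i ≤ 1 / (4 * KK s m s) := by
      refine pow_le_of_le_one (by positivity) ?_ (by omega)
      rw [div_le_one (by positivity)]
      linarith
    calc KK s m i * (1 / (4 * KK s m s)) ^ i ≤ KK s m s * (1 / (4 * KK s m s)) :=
          mul_le_mul h6 h7 (by positivity) hKpos.le
      _ = 1 / 4 := by field_simp

end Helper36.Frac
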