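import Mathlib

/-!
# Fractional chromatic number of degenerate `K_r`-free graphs: definitions

`S v` is the set of left neighbours of the vertex `v` (all smaller than `v`), `R x` the rate of the
vertex `x` (on a fixed history).  `s = r - 2` is the maximal size of the activated cliques.
A clique with top `c` is written `c :: l`, where `l` is a decreasing list of pairwise adjacent
elements of `S c`.
-/

open Finset

namespace Helper36.Frac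

/-- the cliques with `i` elements inside `A`, as decreasing lists -/
def cl (S : ℕ → Finset ℕ) : ℕ → Finset ℕ → Finset (List ℕ)
  | 0, _ => {[]}
  | i + 1, A => A.biUnion fun c => (cl S i (A ∩ S c)).image (List.cons c)

/-- total weight of the cliques with `i` elements inside `A` -/
noncomputable def P (S : ℕ → Finset ℕ) (R : ℕ → ℝ) : ℕ → Finset ℕ → ℝ
  | 0, _ => 1
  | i + 1, A => ∑ c ∈ A, R c * P S R i (A ∩ S c)

open Classical in
/-- the elements `u` of `S x` such that the cliques of sizes `j, …, s - 1` in `S u ∩ S x` are light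
-/
noncomputable def D (S : ℕ → Finset ℕ) (κ : ℕ → ℝ) (s : ℕ) (R : ℕ → ℝ) (x j : ℕ) : Finset ℕ :=
  (S x).filter fun u => ∀ i, j ≤ i → i < s → κ i * P S R i (S u ∩ S x) < 1

/-- the items: `⟨c, i, l⟩` is the clique `c :: l`, where `l` has `i` elements -/
abbrev Item : Type := Σ _ : ℕ, Σ _ : ℕ, List ℕ

/-- the cliques with at most `s` elements and with top in `A` -/
def U (S : ℕ → Finset ℕ) (s : ℕ) (A : Finset ℕ) : Finset Item :=
  A.sigma fun c => (range s).sigma fun i => cl S i (S c)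

/-- the rate of a clique -/
noncomputable def rate (κ : ℕ → ℝ) (R : ℕ → ℝ) (K : Item) : ℝ :=
  κ (K.2.1 + 1) * (R K.1 * (K.2.2.map R).prod)

open Classical in
/-- the multiplier of the clique `K` in the law of `v` -/
noncomputable def mult (S : ℕ → Finset ℕ) (κ β : ℕ → ℝ) (s : ℕ) (R : ℕ → ℝ) (v : ℕ) (K : Item) : ℝ :=
  if K.1 ∈ S v then
    (if ∀ x ∈ K.2.2, x ∈ S v then 0
      else if ∀ x ∈ K.2.2, x ∈ D S κ s R K.1 (K.2.1 + 1) then 1 + β (K.2.1 + 1) else 1)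
  else 1

/-- the normalising factor of two multipliers `a`, `b` at rate `q` -/
noncomputable def nn (a b q : ℝ) : ℝ := 1 + (a - 1) * (b - 1) * (q / (1 - q))

/-- the product of the normalising factors of the laws of `u` and `v` -/
noncomputable def N (S : ℕ → Finset ℕ) (κ β : ℕ → ℝ) (s : ℕ) (R : ℕ → ℝ) (u v : ℕ) : ℝ :=
  ∏ K ∈ U S s (S u ∩ S v), nn (mult S κ β s R u K) (mult S κ β s R v K) (rate κ R K)

/-- the first condition on `v` -/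
def HypN (S : ℕ → Finset ℕ) (κ β : ℕ → ℝ) (s : ℕ) (L : ℝ) (R : ℕ → ℝ) (v : ℕ) : Prop :=
  ∑ u ∈ S v, R u / N S κ β s R u v ≤ 4 * L

/-- upper bound for `log N` -/
noncomputable def E (S : ℕ → Finset ℕ) (κ β : ℕ → ℝ) (s : ℕ) (R : ℕ → ℝ) (u v : ℕ) : ℝ :=
  2 * ∑ c ∈ S u ∩ S v, R c +
  ∑ i ∈ Ico 1 s, κ (i + 1) * (2 * P S R (i + 1) (S u ∩ S v)
    + 2 * β (i + 1) ^ 2 * ∑ c ∈ S u ∩ S v, R c * P S R i (D S κ s R c (i + 1))
    - β (i + 1) * ∑ c ∈ S u ∩ S v, R c *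
        (P S R i (S u ∩ D S κ s R c (i + 1)) - P S R i (S u ∩ S v ∩ D S κ s R c (i + 1))))

/-- the consequence of `HypN` that the deterministic part uses -/
def HypE (S : ℕ → Finset ℕ) (κ β : ℕ → ℝ) (s : ℕ) (L : ℝ) (R : ℕ → ℝ) (v : ℕ) : Prop :=
  ∑ u ∈ S v, R u * Real.exp (-E S κ β s R u v) ≤ 4 * L

/-- the constants; `M j` bounds the load of `D v j` -/
structure Con (s : ℕ) (L : ℝ) (κ β δ T M : ℕ → ℝ) : Prop where
  hL : 0 < L
  κ1 : κ 1 = 1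
  κge : ∀ i, 1 ≤ κ i
  β0 : ∀ i, 0 ≤ β i
  β1 : ∀ i, β i ≤ 1
  M0 : ∀ j, 0 ≤ M j
  cQ : ∑ i ∈ Ico 1 s, 2 * κ (i + 1) * β (i + 1) ^ 2 * M (i + 1) ^ i ≤ 1
  δ0 : ∀ j, 0 < δ j
  δ1 : ∀ j, δ j ≤ 1
  δ2 : ∀ j, 1 ≤ j → j + 1 < s → δ (j + 1) ≤ δ j / 2
  T1 : ∀ j, 1 ≤ j → j < s → 4 * L * Real.exp (-T j) ≤ 1
  Tm : ∀ j, 1 ≤ j → j + 1 < s → T j ≤ T (j + 1)
  Tδ : ∀ j, 1 ≤ j → j + 1 < s → 4 * L * Real.exp (-T (j + 1)) ≤ δ j / 4
  c2 : ∀ j, 1 ≤ j → j + 1 < s → j * δ (j + 1) * (M (j + 1) + 1) ^ (j - 1) * κ j ≤ 1 / 2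
  c3 : ∀ j, 1 ≤ j → j + 1 < s → 16 * κ j ≤ δ j * κ (j + 1)
  c4 : ∀ j, 1 ≤ j → j < s →
    3 * (M (j + 1) + 1) + 2 * ∑ i ∈ Ico 1 j, κ (i + 1) * (M (j + 1) + 1) ^ (i + 1) + 2 * s + T j ≤
      β (j + 1) * κ (j + 1) * δ j / (16 * κ j)
  c50 : 4 * L * Real.exp (3 + 2 * s) ≤ M 1
  c5 : ∀ j, 1 ≤ j → j < s →
    4 * L * Real.exp (3 * (M j + 1) + 2 * ∑ i ∈ Ico 1 j, κ (i + 1) * (M j + 1) ^ (i + 1) + 2 * s) + 1
      ≤ M (j + 1)

/-- the bound for `log N v v` -/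
noncomputable def Bd (s : ℕ) (κ M : ℕ → ℝ) : ℝ :=
  3 * M s + 2 * ∑ i ∈ Ico 1 s, κ (i + 1) * M s ^ (i + 1)

end Helper36.Frac
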