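import Pool.Agent.Helper36.Frac.PLem

/-!
# The deterministic part
-/

open Finset

namespace Helper36.Frac

variable {S : ℕ → Finset ℕ} {κ β δ T M : ℕ → ℝ} {s : ℕ} {L : ℝ} {R : ℕ → ℝ}

theorem mem_D {x j u : ℕ} : u ∈ D S κ s R x j ↔
    u ∈ S x ∧ ∀ i, j ≤ i → i < s → κ i * P S R i (S u ∩ S x) < 1 := by
  rw [D, Finset.mem_filter]

theorem D_sub (x j : ℕ) : D S κ s R x j ⊆ S x := fun _ hu => (mem_D.1 hu).1

theorem D_mono {x j j' : ℕ} (h : j ≤ j') : D S κ s R x j ⊆ D S κ s R x j' := by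
  intro u hu
  rw [mem_D] at hu ⊢
  exact ⟨hu.1, fun i hi his => hu.2 i (h.trans hi) his⟩

theorem D_top (x : ℕ) : D S κ s R x s = S x := by
  refine Finset.Subset.antisymm (D_sub x s) fun u hu => mem_D.2 ⟨hu, fun i h1 h2 => ?_⟩
  omega

open Classical in
/-- the exceptional elements of `S v` -/
noncomputable def Exc (S : ℕ → Finset ℕ) (κ δ : ℕ → ℝ) (s : ℕ) (R : ℕ → ℝ) (v j : ℕ) : Finset ℕ :=
  (D S κ s R v (j + 1)).filter fun u => δ j ≤ ∑ c ∈ (S u ∩ S v) \ D S κ s R u j, R c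

theorem mem_Exc {v j u : ℕ} : u ∈ Exc S κ δ s R v j ↔
    u ∈ D S κ s R v (j + 1) ∧ δ j ≤ ∑ c ∈ (S u ∩ S v) \ D S κ s R u j, R c := by
  rw [Exc, Finset.mem_filter]

/-- the weight of the killing cliques of size `i + 1` -/
noncomputable def RR (S : ℕ → Finset ℕ) (κ : ℕ → ℝ) (s : ℕ) (R : ℕ → ℝ) (u v i : ℕ) : ℝ :=
  ∑ c ∈ S u ∩ S v, R c *
    (P S R i (S u ∩ D S κ s R c (i + 1)) - P S R i (S u ∩ S v ∩ D S κ s R c (i + 1)))

theorem RR_nonneg (hR : ∀ x, 0 ≤ R x) (u v i : ℕ) : 0 ≤ RR S κ s R u v i := by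
  refine Finset.sum_nonneg fun c _ => mul_nonneg (hR c) ?_
  rw [sub_nonneg]
  exact P_mono hR i (Finset.inter_subset_inter_right Finset.inter_subset_left)

/-- the double tilt is dominated by the load -/
theorem E_le3 (hR : ∀ x, 0 ≤ R x) (hC : Con s L κ β δ T M) {u v : ℕ}
    (hA : ∀ c ∈ S u ∩ S v, 0 < R c → ∀ j, 1 ≤ j → j ≤ s → ∑ b ∈ D S κ s R c j, R b ≤ M j) :
    E S κ β s R u v ≤ 3 * (∑ c ∈ S u ∩ S v, R c) +
      ∑ i ∈ Ico 1 s, κ (i + 1) * (2 * P S R (i + 1) (S u ∩ S v)) -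
      ∑ i ∈ Ico 1 s, κ (i + 1) * (β (i + 1) * RR S κ s R u v i) := by
  set l := ∑ c ∈ S u ∩ S v, R c with hl
  have hl0 : 0 ≤ l := Finset.sum_nonneg fun c _ => hR c
  have h1 : ∀ i ∈ Ico 1 s, ∑ c ∈ S u ∩ S v, R c * P S R i (D S κ s R c (i + 1)) ≤
      l * M (i + 1) ^ i := by
    intro i hi
    rw [Finset.mem_Ico] at hi
    rw [hl, Finset.sum_mul]
    refine Finset.sum_le_sum fun c hc => ?_
    rcases (hR c).lt_or_eq with hc0 | hc0
    · refine mul_le_mul_of_nonneg_left ((P_le_pow hR i _).trans ?_) hc0.le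
      have := hA c hc hc0 (i + 1) (by omega) (by omega)
      have h0 : 0 ≤ ∑ b ∈ D S κ s R c (i + 1), R b := Finset.sum_nonneg fun c _ => hR c
      gcongr
    · rw [← hc0]; simp
  have h2 : ∑ i ∈ Ico 1 s, κ (i + 1) * (2 * β (i + 1) ^ 2 *
      ∑ c ∈ S u ∩ S v, R c * P S R i (D S κ s R c (i + 1))) ≤ l := by
    calc ∑ i ∈ Ico 1 s, κ (i + 1) * (2 * β (i + 1) ^ 2 *
        ∑ c ∈ S u ∩ S v, R c * P S R i (D S κ s R c (i + 1)))
        ≤ ∑ i ∈ Ico 1 s, κ (i + 1) * (2 * β (i + 1) ^ 2 * (l * M (i + 1) ^ i)) := by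
          refine Finset.sum_le_sum fun i hi => ?_
          have := hC.κge (i + 1)
          have := h1 i hi
          gcongr
      _ = l * ∑ i ∈ Ico 1 s, 2 * κ (i + 1) * β (i + 1) ^ 2 * M (i + 1) ^ i := by
          rw [Finset.mul_sum]
          refine Finset.sum_congr rfl fun i _ => ?_
          ring
      _ ≤ l * 1 := mul_le_mul_of_nonneg_left hC.cQ hl0
      _ = l := mul_one l
  have h3 : E S κ β s R u v = 2 * l + (∑ i ∈ Ico 1 s, κ (i + 1) * (2 * P S R (i + 1) (S u ∩ S v))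
      + ∑ i ∈ Ico 1 s, κ (i + 1) * (2 * β (i + 1) ^ 2 *
      ∑ c ∈ S u ∩ S v, R c * P S R i (D S κ s R c (i + 1)))
      - ∑ i ∈ Ico 1 s, κ (i + 1) * (β (i + 1) * RR S κ s R u v i)) := by
    rw [E, ← Finset.sum_add_distrib, ← Finset.sum_sub_distrib]
    congr 1
    refine Finset.sum_congr rfl fun i _ => ?_
    rw [RR]
    ring
  rw [h3]
  linarith

/-- bound for the overlap of the cliques -/
theorem sumP_le (hR : ∀ x, 0 ≤ R x) (hC : Con s L κ β δ T M) {u v : ℕ}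
    (hfree : P S R s (S u ∩ S v) = 0) {x : ℝ} (hx : ∑ c ∈ S u ∩ S v, R c ≤ x) {j : ℕ}
    (hj : u ∈ D S κ s R v (j + 1)) :
    ∑ i ∈ Ico 1 s, κ (i + 1) * (2 * P S R (i + 1) (S u ∩ S v)) ≤
      2 * ∑ i ∈ Ico 1 j, κ (i + 1) * x ^ (i + 1) + 2 * s := by
  have hl0 : 0 ≤ ∑ c ∈ S u ∩ S v, R c := Finset.sum_nonneg fun c _ => hR c
  have hx0 : 0 ≤ x := hl0.trans hx
  have hκ0 : ∀ i, 0 ≤ κ i := fun i => zero_le_one.trans (hC.κge i)
  have h1 : ∀ i ∈ Ico 1 s, κ (i + 1) * (2 * P S R (i + 1) (S u ∩ S v)) ≤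
      (if i < j then 2 * (κ (i + 1) * x ^ (i + 1)) else 0) + 2 := by
    intro i hi
    rw [Finset.mem_Ico] at hi
    by_cases hij : i < j
    · rw [if_pos hij]
      have h2 := P_le_pow (S := S) hR (i + 1) (S u ∩ S v)
      have h3 : (∑ c ∈ S u ∩ S v, R c) ^ (i + 1) ≤ x ^ (i + 1) := by gcongr
      have h4 := mul_le_mul_of_nonneg_left (h2.trans h3) (hκ0 (i + 1))
      linarith
    · rw [if_neg hij]
      rcases Nat.lt_or_ge (i + 1) s with h | h
      · have := (mem_D.1 hj).2 (i + 1) (by omega) h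
        linarith
      · have e : i + 1 = s := by omega
        rw [e, hfree]
        simp
  refine (Finset.sum_le_sum h1).trans ?_
  rw [Finset.sum_add_distrib]
  have h5 : ∑ i ∈ Ico 1 s, (if i < j then 2 * (κ (i + 1) * x ^ (i + 1)) else 0) ≤
      2 * ∑ i ∈ Ico 1 j, κ (i + 1) * x ^ (i + 1) := by
    rw [← Finset.sum_filter, Finset.mul_sum]
    refine Finset.sum_le_sum_of_subset_of_nonneg ?_ fun i _ _ => ?_
    · intro i hi
      rw [Finset.mem_filter, Finset.mem_Ico] at hi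
      exact Finset.mem_Ico.2 ⟨hi.1.1, hi.2⟩
    · have := hκ0 (i + 1)
      positivity
  have h6 : ∑ _i ∈ Ico 1 s, (2 : ℝ) ≤ 2 * s := by
    rw [Finset.sum_const, Nat.card_Ico, nsmul_eq_mul]
    have : ((s - 1 : ℕ) : ℝ) ≤ s := by exact_mod_cast Nat.sub_le s 1
    linarith
  linarith

/-- the core of the closedness argument -/
theorem lemB_core (hR : ∀ x, 0 ≤ R x) (hC : Con s L κ β δ T M)
    (hfree : ∀ v, ∀ u ∈ S v, P S R s (S u ∩ S v) = 0) {u : ℕ}
    (hAu : ∀ j, 1 ≤ j → j ≤ s → ∑ c ∈ D S κ s R u j, R c ≤ M j)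
    (hEu : ∀ j, 1 ≤ j → j < s → ∑ c ∈ Exc S κ δ s R u j, R c ≤ 4 * L * Real.exp (-T j))
    (hAc : ∀ c ∈ S u, 0 < R c → ∀ j, 1 ≤ j → j ≤ s → ∑ b ∈ D S κ s R c j, R b ≤ M j)
    {v : ℕ} (hu : u ∈ S v) {j : ℕ} (hj1 : 1 ≤ j) (hjs : j < s) (huD : u ∈ D S κ s R v (j + 1))
    (hδ : δ j ≤ ∑ c ∈ (S u ∩ S v) \ D S κ s R u j, R c)
    (hnext : j + 1 < s → ∑ c ∈ (S u ∩ S v) \ D S κ s R u (j + 1), R c < δ (j + 1)) :
    E S κ β s R u v ≤ -T j := by
  have hκ0 : ∀ i, 0 < κ i := fun i => zero_lt_one.trans_le (hC.κge i)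
  have hδ0 := hC.δ0 j
  have hM0 := hC.M0 (j + 1)
  -- elements outside of the next level
  have hout : ∑ c ∈ (S u ∩ S v) \ D S κ s R u (j + 1), R c ≤ δ j / 2 ∧
      ∑ c ∈ (S u ∩ S v) \ D S κ s R u (j + 1), R c ≤ 1 := by
    rcases Nat.lt_or_ge (j + 1) s with h | h
    · have h1 := (hnext h).le
      exact ⟨h1.trans (hC.δ2 j hj1 h), h1.trans (hC.δ1 _)⟩
    · have e : j + 1 = s := by omega
      have : (S u ∩ S v) \ D S κ s R u (j + 1) = ∅ := by
        rw [e, D_top]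
        exact Finset.sdiff_eq_empty_iff_subset.2 Finset.inter_subset_left
      rw [this, Finset.sum_empty]
      exact ⟨by positivity, zero_le_one⟩
  -- load of `C`
  have hld : ∀ A B : Finset ℕ, ∑ c ∈ A, R c ≤ ∑ c ∈ B, R c + ∑ c ∈ A \ B, R c := by
    intro A B
    rw [← Finset.sum_inter_add_sum_sdiff A B]
    have : ∑ c ∈ A ∩ B, R c ≤ ∑ c ∈ B, R c :=
      Finset.sum_le_sum_of_subset_of_nonneg Finset.inter_subset_right fun c _ _ => hR c
    linarith
  have hCl : ∑ c ∈ S u ∩ S v, R c ≤ M (j + 1) + 1 := by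
    have h1 := hld (S u ∩ S v) (D S κ s R u (j + 1))
    have h2 := hAu (j + 1) (by omega) (by omega)
    linarith [hout.2]
  -- the bad elements
  set X : Finset ℕ := if j + 1 < s then Exc S κ δ s R u (j + 1) else ∅ with hX
  have hXl : ∑ c ∈ X, R c ≤ δ j / 4 := by
    rw [hX]
    split_ifs with h
    · exact (hEu (j + 1) (by omega) h).trans (hC.Tδ j hj1 h)
    · rw [Finset.sum_empty]; positivity
  set B := (((S u ∩ S v) ∩ D S κ s R u (j + 1)) \ D S κ s R u j) \ X with hB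
  have hBl : δ j / 4 ≤ ∑ c ∈ B, R c := by
    have h1 := hld ((S u ∩ S v) \ D S κ s R u j) (((S u ∩ S v) ∩ D S κ s R u (j + 1)) \ D S κ s R u j)
    have h2 : ∑ c ∈ ((S u ∩ S v) \ D S κ s R u j) \
        (((S u ∩ S v) ∩ D S κ s R u (j + 1)) \ D S κ s R u j), R c ≤
        ∑ c ∈ (S u ∩ S v) \ D S κ s R u (j + 1), R c := by
      refine Finset.sum_le_sum_of_subset_of_nonneg ?_ fun c _ _ => hR c
      intro c hc
      simp only [Finset.mem_sdiff, Finset.mem_inter] at hc ⊢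
      tauto
    have h3 := hld (((S u ∩ S v) ∩ D S κ s R u (j + 1)) \ D S κ s R u j) X
    rw [← hB] at h3
    linarith [hout.1]
  -- killing cliques above a bad element
  have hkill : ∀ c ∈ B, R c * (1 / (2 * κ j)) ≤ R c * P S R j (S u ∩ D S κ s R c (j + 1)) := by
    intro c hc
    rcases (hR c).lt_or_eq with hc0 | hc0
    swap
    · rw [← hc0]; simp
    refine mul_le_mul_of_nonneg_left ?_ hc0.le
    rw [hB, Finset.mem_sdiff, Finset.mem_sdiff, Finset.mem_inter, Finset.mem_inter] at hc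
    obtain ⟨⟨⟨⟨hcu, _⟩, hcD⟩, hcn⟩, hcX⟩ := hc
    have hPj : 1 ≤ κ j * P S R j (S c ∩ S u) := by
      by_contra hlt
      rw [not_le] at hlt
      refine hcn (mem_D.2 ⟨hcu, fun i hi his => ?_⟩)
      rcases hi.lt_or_eq with h | h
      · exact (mem_D.1 hcD).2 i h his
      · rw [← h]; exact hlt
    have hout2 : (j + 1 < s → ∑ b ∈ (S c ∩ S u) \ D S κ s R c (j + 1), R b < δ (j + 1)) := by
      intro h
      rw [hX, if_pos h] at hcX
      by_contra hge
      rw [not_lt] at hge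
      exact hcX (mem_Exc.2 ⟨D_mono (by omega) hcD, hge⟩)
    set a := ∑ b ∈ S c ∩ S u, R b with ha
    set o := ∑ b ∈ (S c ∩ S u) \ D S κ s R c (j + 1), R b with ho
    have ho0 : 0 ≤ o := Finset.sum_nonneg fun c _ => hR c
    have ha0 : 0 ≤ a := Finset.sum_nonneg fun c _ => hR c
    have hsp := P_split (S := S) hR j (S c ∩ S u) (D S κ s R c (j + 1))
    rw [← ha, ← ho] at hsp
    have hinter : S c ∩ S u ∩ D S κ s R c (j + 1) = S u ∩ D S κ s R c (j + 1) := by
      ext x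
      simp only [Finset.mem_inter]
      have := @D_sub S κ s R c (j + 1) x
      tauto
    rw [hinter] at hsp
    have hloss : j * o * a ^ (j - 1) * κ j ≤ 1 / 2 := by
      rcases Nat.lt_or_ge (j + 1) s with h | h
      · have h1 := (hout2 h).le
        have h2 : a ≤ M (j + 1) + 1 := by
          have e1 := hld (S c ∩ S u) (D S κ s R c (j + 1))
          have e2 := hAc c hcu hc0 (j + 1) (by omega) (by omega)
          have e3 := hC.δ1 (j + 1)
          rw [← ha, ← ho] at e1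
          linarith
        refine le_trans ?_ (hC.c2 j hj1 h)
        have := hκ0 j
        have := hC.δ0 (j + 1)
        have : 0 ≤ (j : ℝ) * δ (j + 1) := by positivity
        gcongr
      · have e : j + 1 = s := by omega
        have : (S c ∩ S u) \ D S κ s R c (j + 1) = ∅ := by
          rw [e, D_top]
          exact Finset.sdiff_eq_empty_iff_subset.2 Finset.inter_subset_left
        rw [this, Finset.sum_empty] at ho
        rw [ho]; norm_num
    rw [div_le_iff₀ (by have := hκ0 j; positivity)]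
    have h7 : κ j * P S R j (S c ∩ S u) ≤ κ j * P S R j (S u ∩ D S κ s R c (j + 1)) +
        j * o * a ^ (j - 1) * κ j := by
      have := mul_le_mul_of_nonneg_left hsp (hκ0 j).le
      nlinarith
    linarith
  -- total weight of the killing cliques
  have hRR : δ j / (16 * κ j) ≤ RR S κ s R u v j := by
    have h1 : δ j / (8 * κ j) ≤ ∑ c ∈ S u ∩ S v, R c * P S R j (S u ∩ D S κ s R c (j + 1)) := by
      have hsub : B ⊆ S u ∩ S v := by
        intro c hc
        rw [hB] at hc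
        simp only [Finset.mem_sdiff, Finset.mem_inter] at hc ⊢
        exact hc.1.1.1
      calc δ j / (8 * κ j) = (δ j / 4) * (1 / (2 * κ j)) := by
            have := hκ0 j
            field_simp
            norm_num
        _ ≤ (∑ c ∈ B, R c) * (1 / (2 * κ j)) := by
            refine mul_le_mul_of_nonneg_right hBl ?_
            have := hκ0 j
            positivity
        _ = ∑ c ∈ B, R c * (1 / (2 * κ j)) := by rw [Finset.sum_mul]
        _ ≤ ∑ c ∈ B, R c * P S R j (S u ∩ D S κ s R c (j + 1)) := Finset.sum_le_sum hkill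
        _ ≤ _ := Finset.sum_le_sum_of_subset_of_nonneg hsub fun c _ _ =>
            mul_nonneg (hR c) (P_nonneg hR _ _)
    have h2 : ∑ c ∈ S u ∩ S v, R c * P S R j (S u ∩ S v ∩ D S κ s R c (j + 1)) ≤
        δ j / (16 * κ j) := by
      have h3 : ∑ c ∈ S u ∩ S v, R c * P S R j (S u ∩ S v ∩ D S κ s R c (j + 1)) ≤
          P S R (j + 1) (S u ∩ S v) := by
        rw [P]
        refine Finset.sum_le_sum fun c _ => mul_le_mul_of_nonneg_left ?_ (hR c)
        exact P_mono hR j (Finset.inter_subset_inter_left (D_sub c (j + 1)))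
      refine h3.trans ?_
      rcases Nat.lt_or_ge (j + 1) s with h | h
      · have h4 := (mem_D.1 huD).2 (j + 1) le_rfl h
        have h5 := hC.c3 j hj1 h
        have h6 := hκ0 j
        have h7 := hκ0 (j + 1)
        rw [le_div_iff₀ (by positivity)]
        have h8 : P S R (j + 1) (S u ∩ S v) * (16 * κ j) ≤
            P S R (j + 1) (S u ∩ S v) * (δ j * κ (j + 1)) :=
          mul_le_mul_of_nonneg_left h5 (P_nonneg hR _ _)
        nlinarith
      · have e : j + 1 = s := by omega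
        rw [e, hfree v u hu]
        have := hκ0 j
        positivity
    have h9 : RR S κ s R u v j = ∑ c ∈ S u ∩ S v, R c * P S R j (S u ∩ D S κ s R c (j + 1)) -
        ∑ c ∈ S u ∩ S v, R c * P S R j (S u ∩ S v ∩ D S κ s R c (j + 1)) := by
      rw [RR, ← Finset.sum_sub_distrib]
      refine Finset.sum_congr rfl fun c _ => ?_
      ring
    rw [h9]
    have h10 : δ j / (8 * κ j) = 2 * (δ j / (16 * κ j)) := by
      have := hκ0 j
      field_simp
      norm_num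
    linarith
  -- conclusion
  have hE := E_le3 hR hC (u := u) (v := v) fun c hc hc0 => hAc c (Finset.mem_inter.1 hc).1 hc0
  have hP := sumP_le hR hC (hfree v u hu) hCl huD
  have hK : κ (j + 1) * (β (j + 1) * RR S κ s R u v j) ≤
      ∑ i ∈ Ico 1 s, κ (i + 1) * (β (i + 1) * RR S κ s R u v i) := by
    refine Finset.single_le_sum (f := fun i => κ (i + 1) * (β (i + 1) * RR S κ s R u v i))
      (fun i _ => ?_) (Finset.mem_Ico.2 ⟨hj1, hjs⟩)
    exact mul_nonneg (hκ0 _).le (mul_nonneg (hC.β0 _) (RR_nonneg hR u v i))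
  have hK2 : β (j + 1) * κ (j + 1) * δ j / (16 * κ j) ≤
      κ (j + 1) * (β (j + 1) * RR S κ s R u v j) := by
    have h1 := mul_le_mul_of_nonneg_left hRR
      (mul_nonneg (hC.β0 (j + 1)) (hκ0 (j + 1)).le)
    calc β (j + 1) * κ (j + 1) * δ j / (16 * κ j)
        = β (j + 1) * κ (j + 1) * (δ j / (16 * κ j)) := by ring
      _ ≤ _ := h1
      _ = _ := by ring
  have h4 := hC.c4 j hj1 hjs
  linarith

/-- closedness: exceptional elements are killed -/
theorem lemB (hR : ∀ x, 0 ≤ R x) (hC : Con s L κ β δ T M)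
    (hfree : ∀ v, ∀ u ∈ S v, P S R s (S u ∩ S v) = 0) {u : ℕ}
    (hAu : ∀ j, 1 ≤ j → j ≤ s → ∑ c ∈ D S κ s R u j, R c ≤ M j)
    (hEu : ∀ j, 1 ≤ j → j < s → ∑ c ∈ Exc S κ δ s R u j, R c ≤ 4 * L * Real.exp (-T j))
    (hAc : ∀ c ∈ S u, 0 < R c → ∀ j, 1 ≤ j → j ≤ s → ∑ b ∈ D S κ s R c j, R b ≤ M j)
    {v : ℕ} (hu : u ∈ S v) : ∀ k j : ℕ, s ≤ j + k → 1 ≤ j → j < s → u ∈ Exc S κ δ s R v j →
      E S κ β s R u v ≤ -T j := by
  intro k
  induction k with
  | zero => intro j h1 _ h3; omega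
  | succ k ih =>
    intro j hk hj1 hjs hj
    rw [mem_Exc] at hj
    by_cases hn : j + 1 < s ∧ u ∈ Exc S κ δ s R v (j + 1)
    · have h1 := ih (j + 1) (by omega) (by omega) hn.1 hn.2
      have h2 := hC.Tm j hj1 hn.1
      linarith
    · refine lemB_core hR hC hfree hAu hEu hAc hu hj1 hjs hj.1 hj.2 fun h => ?_
      by_contra hge
      rw [not_lt] at hge
      exact hn ⟨h, mem_Exc.2 ⟨D_mono (by omega) hj.1, hge⟩⟩

/-- use of `HypE` -/
theorem star (hR : ∀ x, 0 ≤ R x) {v : ℕ} (hv : HypE S κ β s L R v) {A : Finset ℕ} (hA : A ⊆ S v)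
    {B : ℝ} (hB : ∀ u ∈ A, 0 < R u → E S κ β s R u v ≤ B) :
    ∑ u ∈ A, R u ≤ 4 * L * Real.exp B := by
  calc ∑ u ∈ A, R u ≤ ∑ u ∈ A, R u * Real.exp (-E S κ β s R u v) * Real.exp B := by
        refine Finset.sum_le_sum fun u hu => ?_
        rcases (hR u).lt_or_eq with h | h
        · have h1 := hB u hu h
          rw [mul_assoc, ← Real.exp_add]
          have h2 : 1 ≤ Real.exp (-E S κ β s R u v + B) := Real.one_le_exp (by linarith)
          nlinarith
        · rw [← h]; simp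
    _ = (∑ u ∈ A, R u * Real.exp (-E S κ β s R u v)) * Real.exp B := by rw [Finset.sum_mul]
    _ ≤ (∑ u ∈ S v, R u * Real.exp (-E S κ β s R u v)) * Real.exp B := by
        refine mul_le_mul_of_nonneg_right ?_ (Real.exp_pos _).le
        exact Finset.sum_le_sum_of_subset_of_nonneg hA fun u _ _ =>
          mul_nonneg (hR u) (Real.exp_pos _).le
    _ ≤ 4 * L * Real.exp B := mul_le_mul_of_nonneg_right hv (Real.exp_pos _).le

theorem det_main (hS : ∀ v, ∀ u ∈ S v, u < v) (hfree : ∀ v, ∀ u ∈ S v, P S R s (S u ∩ S v) = 0)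
    (hR : ∀ x, 0 ≤ R x) (hC : Con s L κ β δ T M) (v : ℕ) :
    (∀ x < v, 0 < R x → HypE S κ β s L R x) → HypE S κ β s L R v →
    (∀ j, 1 ≤ j → j ≤ s → ∑ u ∈ D S κ s R v j, R u ≤ M j) ∧
    (∀ j, 1 ≤ j → j < s → ∑ u ∈ Exc S κ δ s R v j, R u ≤ 4 * L * Real.exp (-T j)) := by
  induction v using Nat.strong_induction_on with
  | _ v ih =>
    intro hal hv
    have hκ0 : ∀ i, 0 < κ i := fun i => zero_lt_one.trans_le (hC.κge i)
    -- the induction hypothesis for alive vertices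
    have hI : ∀ u < v, 0 < R u → (∀ j, 1 ≤ j → j ≤ s → ∑ c ∈ D S κ s R u j, R c ≤ M j) ∧
        (∀ j, 1 ≤ j → j < s → ∑ c ∈ Exc S κ δ s R u j, R c ≤ 4 * L * Real.exp (-T j)) :=
      fun u huv hu0 => ih u huv (fun x hx => hal x (hx.trans huv)) (hal u huv hu0)
    have hAc : ∀ u ∈ S v, ∀ c ∈ S u, 0 < R c → ∀ j, 1 ≤ j → j ≤ s →
        ∑ b ∈ D S κ s R c j, R b ≤ M j :=
      fun u hu c hc hc0 => (hI c ((hS u c hc).trans (hS v u hu)) hc0).1
    have hB : ∀ u ∈ S v, 0 < R u → ∀ j, 1 ≤ j → j < s → u ∈ Exc S κ δ s R v j →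
        E S κ β s R u v ≤ -T j := by
      intro u hu hu0 j hj1 hjs hj
      have h1 := hI u (hS v u hu) hu0
      exact lemB hR hC hfree h1.1 h1.2 (hAc u hu) hu s j (by omega) hj1 hjs hj
    have hExc : ∀ j, 1 ≤ j → j < s → ∑ u ∈ Exc S κ δ s R v j, R u ≤ 4 * L * Real.exp (-T j) := by
      intro j hj1 hjs
      have hsub : Exc S κ δ s R v j ⊆ S v := fun u hu => D_sub v (j + 1) (mem_Exc.1 hu).1
      exact star hR hv hsub fun u hu hu0 => hB u (hsub hu) hu0 j hj1 hjs hu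
    have hE3 : ∀ u ∈ S v, E S κ β s R u v ≤ 3 * (∑ c ∈ S u ∩ S v, R c) +
        ∑ i ∈ Ico 1 s, κ (i + 1) * (2 * P S R (i + 1) (S u ∩ S v)) := by
      intro u hu
      have h1 := E_le3 hR hC (u := u) (v := v)
        fun c hc hc0 => hAc u hu c (Finset.mem_inter.1 hc).1 hc0
      have h2 : 0 ≤ ∑ i ∈ Ico 1 s, κ (i + 1) * (β (i + 1) * RR S κ s R u v i) :=
        Finset.sum_nonneg fun i _ => mul_nonneg (hκ0 _).le
          (mul_nonneg (hC.β0 _) (RR_nonneg hR u v i))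
      linarith
    refine ⟨?_, hExc⟩
    intro j hj1 hjs
    obtain ⟨j, rfl⟩ : ∃ k, j = k + 1 := ⟨j - 1, by omega⟩
    rcases Nat.eq_zero_or_pos j with rfl | hj0
    · -- level 1
      refine le_trans (star hR hv (D_sub v 1) (B := 3 + 2 * s) fun u hu hu0 => ?_) hC.c50
      have huS := D_sub v 1 hu
      have hl : ∑ c ∈ S u ∩ S v, R c ≤ 1 := by
        have e1 : P S R 1 (S u ∩ S v) = ∑ c ∈ S u ∩ S v, R c := by
          rw [P]
          refine Finset.sum_congr rfl fun c _ => ?_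
          rw [P, mul_one]
        rcases Nat.lt_or_ge 1 s with h | h
        · have := (mem_D.1 hu).2 1 le_rfl h
          rw [hC.κ1, one_mul, e1] at this
          exact this.le
        · have e : s = 1 := by omega
          have := hfree v u huS
          rw [e, e1] at this
          rw [this]
          exact zero_le_one
      have h1 := hE3 u huS
      have h2 := sumP_le hR hC (hfree v u huS) hl (j := 0) hu
      have e0 : Ico 1 0 = ∅ := by decide
      rw [e0, Finset.sum_empty] at h2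
      linarith
    · -- level j + 1
      have hj2 : j < s := by omega
      have hsplit : D S κ s R v (j + 1) =
          Exc S κ δ s R v j ∪ (D S κ s R v (j + 1) \ Exc S κ δ s R v j) := by
        rw [Finset.union_sdiff_of_subset]
        exact fun u hu => (mem_Exc.1 hu).1
      rw [hsplit, Finset.sum_union Finset.disjoint_sdiff]
      have h1 := (hExc j hj0 hj2).trans (hC.T1 j hj0 hj2)
      have h2 : ∑ u ∈ D S κ s R v (j + 1) \ Exc S κ δ s R v j, R u ≤
          4 * L * Real.exp (3 * (M j + 1) +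
            2 * ∑ i ∈ Ico 1 j, κ (i + 1) * (M j + 1) ^ (i + 1) + 2 * s) := by
        refine star hR hv (Finset.sdiff_subset.trans (D_sub v (j + 1))) fun u hu hu0 => ?_
        rw [Finset.mem_sdiff] at hu
        have huS := D_sub v (j + 1) hu.1
        have hout : ∑ c ∈ (S u ∩ S v) \ D S κ s R u j, R c < δ j := by
          by_contra hge
          rw [not_lt] at hge
          exact hu.2 (mem_Exc.2 ⟨hu.1, hge⟩)
        have hl : ∑ c ∈ S u ∩ S v, R c ≤ M j + 1 := by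
          have e1 := (hI u (hS v u huS) hu0).1 j hj0 (by omega)
          have e2 := hC.δ1 j
          rw [← Finset.sum_inter_add_sum_sdiff (S u ∩ S v) (D S κ s R u j)]
          have e3 : ∑ c ∈ S u ∩ S v ∩ D S κ s R u j, R c ≤ ∑ c ∈ D S κ s R u j, R c :=
            Finset.sum_le_sum_of_subset_of_nonneg Finset.inter_subset_right fun c _ _ => hR c
          linarith
        have h3 := hE3 u huS
        have h4 := sumP_le hR hC (hfree v u huS) hl hu.1
        linarith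
      have h5 := hC.c5 j hj0 hj2
      linarith

theorem det (hS : ∀ v, ∀ u ∈ S v, u < v) (hfree : ∀ v, ∀ u ∈ S v, P S R s (S u ∩ S v) = 0)
    (hR : ∀ x, 0 ≤ R x) (hC : Con s L κ β δ T M) (v : ℕ)
    (hal : ∀ x < v, 0 < R x → HypE S κ β s L R x) (hv : HypE S κ β s L R v) :
    ∀ j, 1 ≤ j → j ≤ s → ∑ u ∈ D S κ s R v j, R u ≤ M j :=
  (det_main hS hfree hR hC v hal hv).1

theorem E_self_le (hS : ∀ v, ∀ u ∈ S v, u < v) (hfree : ∀ v, ∀ u ∈ S v, P S R s (S u ∩ S v) = 0)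
    (hR : ∀ x, 0 ≤ R x) (hC : Con s L κ β δ T M) (hs : 1 ≤ s) (v : ℕ)
    (hal : ∀ x < v, 0 < R x → HypE S κ β s L R x) (hv : HypE S κ β s L R v) :
    E S κ β s R v v ≤ Bd s κ M := by
  have hκ0 : ∀ i, 0 < κ i := fun i => zero_lt_one.trans_le (hC.κge i)
  have h1 := E_le3 hR hC (u := v) (v := v) fun c hc hc0 => by
    have hcv : c < v := hS v c (Finset.mem_inter.1 hc).1
    exact det hS hfree hR hC c (fun x hx => hal x (hx.trans hcv)) (hal c hcv hc0)
  have h2 : 0 ≤ ∑ i ∈ Ico 1 s, κ (i + 1) * (β (i + 1) * RR S κ s R v v i) :=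
    Finset.sum_nonneg fun i _ => mul_nonneg (hκ0 _).le
      (mul_nonneg (hC.β0 _) (RR_nonneg hR v v i))
  have h3 : ∑ c ∈ S v ∩ S v, R c ≤ M s := by
    rw [Finset.inter_self, ← D_top (S := S) (κ := κ) (s := s) (R := R) v]
    exact det hS hfree hR hC v hal hv s hs le_rfl
  have h0 : 0 ≤ ∑ c ∈ S v ∩ S v, R c := Finset.sum_nonneg fun c _ => hR c
  have h4 : ∑ i ∈ Ico 1 s, κ (i + 1) * (2 * P S R (i + 1) (S v ∩ S v)) ≤
      2 * ∑ i ∈ Ico 1 s, κ (i + 1) * M s ^ (i + 1) := by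
    rw [Finset.mul_sum]
    refine Finset.sum_le_sum fun i _ => ?_
    have h5 := P_le_pow (S := S) hR (i + 1) (S v ∩ S v)
    have h6 : (∑ c ∈ S v ∩ S v, R c) ^ (i + 1) ≤ M s ^ (i + 1) := by gcongr
    have h7 := mul_le_mul_of_nonneg_left (h5.trans h6) (hκ0 (i + 1)).le
    linarith
  rw [Bd]
  linarith

end Helper36.Frac
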