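import Pool.Agent.Helper36.Frac.Defs

/-!
# Module M1: elementary properties of `P` and `cl`
-/

open Finset

namespace Helper36.Frac

variable {S : ℕ → Finset ℕ} {κ β δ T M : ℕ → ℝ} {s : ℕ} {L : ℝ} {R : ℕ → ℝ}

theorem P_nonneg (hR : ∀ x, 0 ≤ R x) (i : ℕ) (A : Finset ℕ) : 0 ≤ P S R i A := by
  induction i generalizing A with
  | zero => simp [P]
  | succ i ih =>
    rw [P]
    exact Finset.sum_nonneg (fun c _ => mul_nonneg (hR c) (ih _))

theorem P_mono (hR : ∀ x, 0 ≤ R x) (i : ℕ) {A B : Finset ℕ} (h : A ⊆ B) :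
    P S R i A ≤ P S R i B := by
  induction i generalizing A B with
  | zero => simp [P]
  | succ i ih =>
    rw [P, P]
    calc ∑ c ∈ A, R c * P S R i (A ∩ S c)
        ≤ ∑ c ∈ A, R c * P S R i (B ∩ S c) :=
          Finset.sum_le_sum (fun c _ => mul_le_mul_of_nonneg_left
            (ih (Finset.inter_subset_inter_right h)) (hR c))
      _ ≤ ∑ c ∈ B, R c * P S R i (B ∩ S c) :=
          Finset.sum_le_sum_of_subset_of_nonneg h
            (fun c _ _ => mul_nonneg (hR c) (P_nonneg hR _ _))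

theorem load_mono (hR : ∀ x, 0 ≤ R x) {A B : Finset ℕ} (h : A ⊆ B) :
    ∑ c ∈ A, R c ≤ ∑ c ∈ B, R c :=
  Finset.sum_le_sum_of_subset_of_nonneg h (fun c _ _ => hR c)

theorem load_nonneg (hR : ∀ x, 0 ≤ R x) (A : Finset ℕ) : 0 ≤ ∑ c ∈ A, R c :=
  Finset.sum_nonneg (fun c _ => hR c)

theorem P_le_pow (hR : ∀ x, 0 ≤ R x) (i : ℕ) (A : Finset ℕ) :
    P S R i A ≤ (∑ c ∈ A, R c) ^ i := by
  induction i generalizing A with
  | zero => simp [P]
  | succ i ih =>
    rw [P, pow_succ', Finset.sum_mul]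
    refine Finset.sum_le_sum (fun c _ => mul_le_mul_of_nonneg_left ?_ (hR c))
    exact (ih _).trans (pow_le_pow_left₀ (load_nonneg hR _)
      (load_mono hR Finset.inter_subset_left) i)

/-- cliques that are not inside `B` -/
theorem P_split (hR : ∀ x, 0 ≤ R x) (i : ℕ) (A B : Finset ℕ) :
    P S R i A ≤ P S R i (A ∩ B) + i * (∑ c ∈ A \ B, R c) * (∑ c ∈ A, R c) ^ (i - 1) := by
  induction i generalizing A with
  | zero => simp [P]
  | succ i ih =>
    rw [P, P]
    have hsplit : ∑ c ∈ A, R c * P S R i (A ∩ S c) =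
        ∑ c ∈ A ∩ B, R c * P S R i (A ∩ S c) + ∑ c ∈ A \ B, R c * P S R i (A ∩ S c) := by
      exact (Finset.sum_inter_add_sum_sdiff A B _).symm
    have h2 : ∑ c ∈ A \ B, R c * P S R i (A ∩ S c) ≤
        (∑ c ∈ A \ B, R c) * (∑ c ∈ A, R c) ^ i := by
      rw [Finset.sum_mul]
      refine Finset.sum_le_sum (fun c _ => mul_le_mul_of_nonneg_left ?_ (hR c))
      exact (P_mono hR i Finset.inter_subset_left).trans (P_le_pow hR i A)
    have h1 : ∑ c ∈ A ∩ B, R c * P S R i (A ∩ S c) ≤
        ∑ c ∈ A ∩ B, R c * P S R i (A ∩ B ∩ S c) +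
          i * (∑ c ∈ A \ B, R c) * (∑ c ∈ A, R c) ^ i := by
      have h3 : ∀ c ∈ A ∩ B, R c * P S R i (A ∩ S c) ≤
          R c * P S R i (A ∩ B ∩ S c) +
            R c * (i * (∑ c ∈ A \ B, R c) * (∑ c ∈ A, R c) ^ (i - 1)) := by
        intro c _
        rw [← mul_add]
        refine mul_le_mul_of_nonneg_left ?_ (hR c)
        have h4 := ih (A ∩ S c)
        have h5 : A ∩ S c ∩ B = A ∩ B ∩ S c := by
          ext x; simp only [Finset.mem_inter]; tauto
        rw [h5] at h4
        refine h4.trans (add_le_add le_rfl ?_)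
        have h6 : ∑ c ∈ (A ∩ S c) \ B, R c ≤ ∑ c ∈ A \ B, R c :=
          load_mono hR (Finset.sdiff_subset_sdiff Finset.inter_subset_left (Finset.Subset.refl _))
        have h7 : (∑ c ∈ A ∩ S c, R c) ^ (i - 1) ≤ (∑ c ∈ A, R c) ^ (i - 1) :=
          pow_le_pow_left₀ (load_nonneg hR _) (load_mono hR Finset.inter_subset_left) _
        exact mul_le_mul (mul_le_mul_of_nonneg_left h6 (Nat.cast_nonneg i)) h7
          (pow_nonneg (load_nonneg hR _) _)
          (mul_nonneg (Nat.cast_nonneg i) (load_nonneg hR _))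
      refine (Finset.sum_le_sum h3).trans ?_
      rw [Finset.sum_add_distrib, ← Finset.sum_mul]
      refine add_le_add le_rfl ?_
      rcases Nat.eq_zero_or_pos i with hi | hi
      · subst hi; simp
      · have h8 : (∑ c ∈ A ∩ B, R c) *
            (i * (∑ c ∈ A \ B, R c) * (∑ c ∈ A, R c) ^ (i - 1)) ≤
            (∑ c ∈ A, R c) * (i * (∑ c ∈ A \ B, R c) * (∑ c ∈ A, R c) ^ (i - 1)) :=
          mul_le_mul_of_nonneg_right (load_mono hR Finset.inter_subset_left)
            (mul_nonneg (mul_nonneg (Nat.cast_nonneg i) (load_nonneg hR _))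
              (pow_nonneg (load_nonneg hR _) _))
        refine h8.trans (le_of_eq ?_)
        obtain ⟨k, rfl⟩ : ∃ k, i = k + 1 := ⟨i - 1, by omega⟩
        simp only [Nat.add_sub_cancel]
        ring
    rw [hsplit]
    simp only [Nat.add_sub_cancel]
    push_cast
    nlinarith [h1, h2]

theorem mem_cl {i : ℕ} {A : Finset ℕ} {l : List ℕ} :
    l ∈ cl S i A ↔ l.length = i ∧ (∀ x ∈ l, x ∈ A) ∧ l.Pairwise (fun x y => y ∈ S x) := by
  induction i generalizing A l with
  | zero =>
    rw [cl, Finset.mem_singleton]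
    constructor
    · rintro rfl; simp
    · rintro ⟨h, -, -⟩; exact List.length_eq_zero_iff.1 h
  | succ i ih =>
    rw [cl, Finset.mem_biUnion]
    constructor
    · rintro ⟨c, hc, hl⟩
      obtain ⟨l', hl', rfl⟩ := Finset.mem_image.1 hl
      obtain ⟨h1, h2, h3⟩ := ih.1 hl'
      refine ⟨by rw [List.length_cons, h1], ?_, ?_⟩
      · intro x hx
        rcases List.mem_cons.1 hx with rfl | hx
        · exact hc
        · exact (Finset.mem_inter.1 (h2 x hx)).1
      · rw [List.pairwise_cons]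
        exact ⟨fun x hx => (Finset.mem_inter.1 (h2 x hx)).2, h3⟩
    · rintro ⟨h1, h2, h3⟩
      cases l with
      | nil => simp at h1
      | cons c l' =>
        rw [List.pairwise_cons] at h3
        refine ⟨c, h2 c List.mem_cons_self, Finset.mem_image.2 ⟨l', ?_, rfl⟩⟩
        refine ih.2 ⟨by simpa using h1, ?_, h3.2⟩
        intro x hx
        exact Finset.mem_inter.2 ⟨h2 x (List.mem_cons_of_mem _ hx), h3.1 x hx⟩

theorem sum_cl (i : ℕ) (A : Finset ℕ) : ∑ l ∈ cl S i A, (l.map R).prod = P S R i A := by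
  induction i generalizing A with
  | zero => simp [cl, P]
  | succ i ih =>
    rw [cl, P, Finset.sum_biUnion]
    · refine Finset.sum_congr rfl (fun c _ => ?_)
      rw [Finset.sum_image (fun a _ b _ h => List.cons_injective h), ← ih, Finset.mul_sum]
      refine Finset.sum_congr rfl (fun l _ => ?_)
      simp
    · intro a _ b _ hab
      rw [Function.onFun, Finset.disjoint_left]
      intro l ha hb
      obtain ⟨l1, -, h1⟩ := Finset.mem_image.1 ha
      obtain ⟨l2, -, h2⟩ := Finset.mem_image.1 hb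
      rw [← h2] at h1
      exact hab (List.cons.inj h1).1

theorem P_eq_zero {i : ℕ} {A : Finset ℕ} (h : cl S i A = ∅) : P S R i A = 0 := by
  rw [← sum_cl, h, Finset.sum_empty]

end Helper36.Frac
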