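import Pool.Agent.Helper36.Frac.Defs
import Pool.Agent.Helper36.Frac.PLem

/-!
# The product of the normalising factors is at most `exp E`
-/

open Finset

namespace Helper36.Frac

variable {S : ℕ → Finset ℕ} {κ β δ T M : ℕ → ℝ} {s : ℕ} {L : ℝ} {R : ℕ → ℝ}

namespace NE

theorem prod_nonneg' (hR : ∀ x, 0 ≤ R x) (l : List ℕ) : 0 ≤ (l.map R).prod := by
  apply List.prod_nonneg
  intro a ha
  obtain ⟨x, _, rfl⟩ := List.mem_map.1 ha
  exact hR x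

theorem rate_nonneg (hκ : ∀ i, 1 ≤ κ i) (hR : ∀ x, 0 ≤ R x) (K : Item) : 0 ≤ rate κ R K :=
  mul_nonneg (zero_le_one.trans (hκ _)) (mul_nonneg (hR _) (prod_nonneg' hR _))

theorem D_sub (κ : ℕ → ℝ) (s : ℕ) (R : ℕ → ℝ) (x j : ℕ) : D S κ s R x j ⊆ S x :=
  Finset.filter_subset _ _

theorem mult_cases (hβ0 : ∀ i, 0 ≤ β i) (hβ1 : ∀ i, β i ≤ 1) (v : ℕ) (K : Item) :
    -1 ≤ mult S κ β s R v K - 1 ∧ mult S κ β s R v K - 1 ≤ 1 := by
  have h0 := hβ0 (K.2.1 + 1)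
  have h1 := hβ1 (K.2.1 + 1)
  unfold mult
  split_ifs <;> constructor <;> linarith

theorem frac_bounds {q : ℝ} (h0 : 0 ≤ q) (h1 : q ≤ 1 / 4) :
    0 ≤ q / (1 - q) ∧ q / (1 - q) ≤ 1 / 3 ∧ q ≤ q / (1 - q) ∧ q / (1 - q) ≤ 2 * q := by
  have h2 : 0 < 1 - q := by linarith
  refine ⟨div_nonneg h0 h2.le, ?_, ?_, ?_⟩
  · rw [div_le_iff₀ h2]; linarith
  · rw [le_div_iff₀ h2]; nlinarith
  · rw [div_le_iff₀ h2]; nlinarith

theorem nn_pos {a b q : ℝ} (ha : -1 ≤ a - 1 ∧ a - 1 ≤ 1) (hb : -1 ≤ b - 1 ∧ b - 1 ≤ 1)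
    (h0 : 0 ≤ q) (h1 : q ≤ 1 / 4) : 0 < nn a b q := by
  obtain ⟨h2, h3, _, _⟩ := frac_bounds h0 h1
  have h4 : -1 ≤ (a - 1) * (b - 1) := by nlinarith [ha.1, ha.2, hb.1, hb.2]
  have h5 : -(1 / 3) ≤ (a - 1) * (b - 1) * (q / (1 - q)) := by nlinarith
  unfold nn
  linarith

theorem filter_cl (i : ℕ) (A B : Finset ℕ) :
    (cl S i A).filter (fun l => ∀ x ∈ l, x ∈ B) = cl S i (A ∩ B) := by
  ext l
  rw [Finset.mem_filter, mem_cl, mem_cl]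
  constructor
  · rintro ⟨⟨h1, h2, h3⟩, h4⟩
    exact ⟨h1, fun x hx => Finset.mem_inter.2 ⟨h2 x hx, h4 x hx⟩, h3⟩
  · rintro ⟨h1, h2, h3⟩
    exact ⟨⟨h1, fun x hx => (Finset.mem_inter.1 (h2 x hx)).1, h3⟩,
      fun x hx => (Finset.mem_inter.1 (h2 x hx)).2⟩

open Classical in
theorem sum_if (i : ℕ) (A B : Finset ℕ) :
    ∑ l ∈ cl S i A, (if ∀ x ∈ l, x ∈ B then (l.map R).prod else 0) = P S R i (A ∩ B) := by
  rw [← Finset.sum_filter, ← sum_cl, ← filter_cl]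

open Classical in
/-- the estimate for one clique -/
noncomputable def bd (S : ℕ → Finset ℕ) (κ β : ℕ → ℝ) (s : ℕ) (R : ℕ → ℝ) (u v : ℕ) (K : Item) : ℝ :=
  κ (K.2.1 + 1) * R K.1 *
    (2 * (if ∀ x ∈ K.2.2, x ∈ S u ∩ S v then (K.2.2.map R).prod else 0)
    + 2 * β (K.2.1 + 1) ^ 2 *
      (if ∀ x ∈ K.2.2, x ∈ D S κ s R K.1 (K.2.1 + 1) then (K.2.2.map R).prod else 0)
    - β (K.2.1 + 1) *
      ((if ∀ x ∈ K.2.2, x ∈ S u ∩ D S κ s R K.1 (K.2.1 + 1) then (K.2.2.map R).prod else 0)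
      - (if ∀ x ∈ K.2.2, x ∈ S u ∩ S v ∩ D S κ s R K.1 (K.2.1 + 1) then (K.2.2.map R).prod else 0)))

theorem core (A B C : Prop) [Decidable A] [Decidable B] [Decidable C] {b q f : ℝ} (hb0 : 0 ≤ b)
    (hq0 : 0 ≤ q) (h2 : 0 ≤ f) (h4 : q ≤ f) (h5 : f ≤ 2 * q) :
    ((if A then 0 else if C then 1 + b else 1) - 1) *
      ((if B then 0 else if C then 1 + b else 1) - 1) * f ≤
      2 * (if A ∧ B then q else 0) + 2 * b ^ 2 * (if C then q else 0)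
        - b * ((if A ∧ C then q else 0) - (if (A ∧ B) ∧ C then q else 0)) := by
  have hb2 := sq_nonneg b
  have e1 := mul_nonneg hb2 hq0
  have e2 := mul_nonneg hb0 (sub_nonneg.2 h4)
  have e3 := mul_nonneg hb0 h2
  have e4 := mul_nonneg hb2 (sub_nonneg.2 h5)
  by_cases hA : A <;> by_cases hB : B <;> by_cases hC : C <;>
    simp only [hA, hB, hC, and_true, and_false, true_and, false_and, if_true, if_false] <;>
    nlinarith

theorem term_le (hκ : ∀ i, 1 ≤ κ i) (hβ0 : ∀ i, 0 ≤ β i) (hβ1 : ∀ i, β i ≤ 1)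
    (hR : ∀ x, 0 ≤ R x) (u v : ℕ) (K : Item) (hu : K.1 ∈ S u) (hv : K.1 ∈ S v)
    (hr : rate κ R K ≤ 1 / 4) :
    (mult S κ β s R u K - 1) * (mult S κ β s R v K - 1) * (rate κ R K / (1 - rate κ R K)) ≤
      bd S κ β s R u v K := by
  classical
  obtain ⟨h2, h3, h4, h5⟩ := frac_bounds (rate_nonneg hκ hR K) hr
  have hb0 := hβ0 (K.2.1 + 1)
  have hb1 := hβ1 (K.2.1 + 1)
  set b := β (K.2.1 + 1) with hb
  have hq0 := rate_nonneg hκ hR K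
  set q := rate κ R K with hq
  set f := q / (1 - q) with hf
  have hqe : q = κ (K.2.1 + 1) * R K.1 * (K.2.2.map R).prod := by
    rw [hq]; unfold rate; ring
  have hI1 : (∀ x ∈ K.2.2, x ∈ S u ∩ S v) ↔ (∀ x ∈ K.2.2, x ∈ S u) ∧ ∀ x ∈ K.2.2, x ∈ S v := by
    simp only [Finset.mem_inter]
    exact ⟨fun h => ⟨fun x hx => (h x hx).1, fun x hx => (h x hx).2⟩,
      fun h x hx => ⟨h.1 x hx, h.2 x hx⟩⟩
  have hI2 : (∀ x ∈ K.2.2, x ∈ S u ∩ D S κ s R K.1 (K.2.1 + 1)) ↔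
      (∀ x ∈ K.2.2, x ∈ S u) ∧ ∀ x ∈ K.2.2, x ∈ D S κ s R K.1 (K.2.1 + 1) := by
    simp only [Finset.mem_inter]
    exact ⟨fun h => ⟨fun x hx => (h x hx).1, fun x hx => (h x hx).2⟩,
      fun h x hx => ⟨h.1 x hx, h.2 x hx⟩⟩
  have hI3 : (∀ x ∈ K.2.2, x ∈ S u ∩ S v ∩ D S κ s R K.1 (K.2.1 + 1)) ↔
      ((∀ x ∈ K.2.2, x ∈ S u) ∧ ∀ x ∈ K.2.2, x ∈ S v) ∧
        ∀ x ∈ K.2.2, x ∈ D S κ s R K.1 (K.2.1 + 1) := by
    simp only [Finset.mem_inter]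
    exact ⟨fun h => ⟨⟨fun x hx => (h x hx).1.1, fun x hx => (h x hx).1.2⟩, fun x hx => (h x hx).2⟩,
      fun h x hx => ⟨⟨h.1.1 x hx, h.1.2 x hx⟩, h.2 x hx⟩⟩
  have key := core (∀ x ∈ K.2.2, x ∈ S u) (∀ x ∈ K.2.2, x ∈ S v)
    (∀ x ∈ K.2.2, x ∈ D S κ s R K.1 (K.2.1 + 1)) hb0 hq0 h2 h4 h5
  have hl : ∀ w, K.1 ∈ S w → mult S κ β s R w K = if ∀ x ∈ K.2.2, x ∈ S w then 0
      else if ∀ x ∈ K.2.2, x ∈ D S κ s R K.1 (K.2.1 + 1) then 1 + b else 1 := by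
    intro w hw
    unfold mult
    rw [if_pos hw]
  rw [hl u hu, hl v hv]
  refine (key.trans (le_of_eq ?_))
  unfold bd
  simp only [hI1, hI2, hI3]
  have hm : ∀ (Q : Prop) [Decidable Q], (if Q then q else 0) =
      κ (K.2.1 + 1) * R K.1 * (if Q then (K.2.2.map R).prod else 0) := by
    intro Q _
    rw [mul_ite, mul_zero, ← hqe]
  rw [hm, hm, hm, hm]
  ring

theorem sum_bd (i c u v : ℕ) :
    ∑ l ∈ cl S i (S c), bd S κ β s R u v ⟨c, i, l⟩ =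
      κ (i + 1) * R c * (2 * P S R i (S u ∩ S v ∩ S c)
        + 2 * β (i + 1) ^ 2 * P S R i (D S κ s R c (i + 1))
        - β (i + 1) * (P S R i (S u ∩ D S κ s R c (i + 1)) -
          P S R i (S u ∩ S v ∩ D S κ s R c (i + 1)))) := by
  classical
  unfold bd
  dsimp only
  rw [← Finset.mul_sum, Finset.sum_sub_distrib, Finset.sum_add_distrib, ← Finset.mul_sum,
    ← Finset.mul_sum, ← Finset.mul_sum, Finset.sum_sub_distrib, sum_if, sum_if, sum_if, sum_if]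
  have hD := D_sub (S := S) κ s R c (i + 1)
  have e1 : S c ∩ (S u ∩ S v) = S u ∩ S v ∩ S c := Finset.inter_comm _ _
  have e2 : S c ∩ D S κ s R c (i + 1) = D S κ s R c (i + 1) := Finset.inter_eq_right.2 hD
  have e3 : S c ∩ (S u ∩ D S κ s R c (i + 1)) = S u ∩ D S κ s R c (i + 1) :=
    Finset.inter_eq_right.2 (Finset.inter_subset_right.trans hD)
  have e4 : S c ∩ (S u ∩ S v ∩ D S κ s R c (i + 1)) = S u ∩ S v ∩ D S κ s R c (i + 1) :=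
    Finset.inter_eq_right.2 (Finset.inter_subset_right.trans hD)
  rw [e1, e2, e3, e4]

theorem mem_U {A : Finset ℕ} {K : Item} :
    K ∈ U S s A ↔ K.1 ∈ A ∧ K.2.1 < s ∧ K.2.2 ∈ cl S K.2.1 (S K.1) := by
  unfold U
  rw [Finset.mem_sigma, Finset.mem_sigma, Finset.mem_range]

end NE

open NE

theorem N_pos (hκ : ∀ i, 1 ≤ κ i) (hβ0 : ∀ i, 0 ≤ β i) (hβ1 : ∀ i, β i ≤ 1)
    (hR : ∀ x, 0 ≤ R x) (u v : ℕ) (hr : ∀ K ∈ U S s (S u ∩ S v), rate κ R K ≤ 1 / 4) :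
    0 < N S κ β s R u v :=
  Finset.prod_pos fun K hK => nn_pos (mult_cases hβ0 hβ1 u K) (mult_cases hβ0 hβ1 v K)
    (rate_nonneg hκ hR K) (hr K hK)

theorem N_le (hS : ∀ v, ∀ u ∈ S v, u < v) (hκ1 : κ 1 = 1) (hκ : ∀ i, 1 ≤ κ i)
    (hβ0 : ∀ i, 0 ≤ β i) (hβ1 : ∀ i, β i ≤ 1)
    (hR : ∀ x, 0 ≤ R x) (hs : 1 ≤ s) (u v : ℕ) (hr : ∀ K ∈ U S s (S u ∩ S v), rate κ R K ≤ 1 / 4) :
    N S κ β s R u v ≤ Real.exp (E S κ β s R u v) := by
  classical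
  -- the termwise estimate
  have h1 : N S κ β s R u v ≤ Real.exp (∑ K ∈ U S s (S u ∩ S v),
      (mult S κ β s R u K - 1) * (mult S κ β s R v K - 1) * (rate κ R K / (1 - rate κ R K))) := by
    rw [Real.exp_sum]
    refine Finset.prod_le_prod (fun K hK => (nn_pos (mult_cases hβ0 hβ1 u K)
      (mult_cases hβ0 hβ1 v K) (rate_nonneg hκ hR K) (hr K hK)).le) fun K _ => ?_
    unfold nn
    rw [add_comm]
    exact Real.add_one_le_exp _
  refine h1.trans (Real.exp_le_exp.2 ?_)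
  -- pass to sums over tops and sizes
  have h2 : ∑ K ∈ U S s (S u ∩ S v),
      (mult S κ β s R u K - 1) * (mult S κ β s R v K - 1) * (rate κ R K / (1 - rate κ R K)) ≤
      ∑ c ∈ S u ∩ S v, ∑ i ∈ range s, (if i = 0 then 2 * R c else
        ∑ l ∈ cl S i (S c), bd S κ β s R u v ⟨c, i, l⟩) := by
    unfold U
    rw [Finset.sum_sigma]
    refine Finset.sum_le_sum fun c hc => ?_
    rw [Finset.sum_sigma]
    refine Finset.sum_le_sum fun i hi => ?_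
    have hcu := (Finset.mem_inter.1 hc).1
    have hcv := (Finset.mem_inter.1 hc).2
    have hrr : ∀ l ∈ cl S i (S c), rate κ R ⟨c, i, l⟩ ≤ 1 / 4 := fun l hl =>
      hr _ (mem_U.2 ⟨hc, Finset.mem_range.1 hi, hl⟩)
    split_ifs with h0
    · subst h0
      have h3 : cl S 0 (S c) = {[]} := rfl
      have h4 := hrr [] (by rw [h3]; exact Finset.mem_singleton_self _)
      rw [h3, Finset.sum_singleton]
      have h5 : rate κ R ⟨c, 0, []⟩ = R c := by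
        unfold rate
        simp [hκ1]
      rw [h5] at h4 ⊢
      have h6 : ∀ w, c ∈ S w → mult S κ β s R w ⟨c, 0, []⟩ = 0 := by
        intro w hw
        unfold mult
        simp [hw]
      rw [h6 u hcu, h6 v hcv]
      obtain ⟨_, _, _, h7⟩ := frac_bounds (hR c) h4
      linarith
    · exact Finset.sum_le_sum fun l hl => term_le hκ hβ0 hβ1 hR u v ⟨c, i, l⟩ hcu hcv (hrr l hl)
  refine h2.trans (le_of_eq ?_)
  -- the identity
  have h3 : ∀ c ∈ S u ∩ S v, ∑ i ∈ range s, (if i = 0 then 2 * R c else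
        ∑ l ∈ cl S i (S c), bd S κ β s R u v ⟨c, i, l⟩) =
      2 * R c + ∑ i ∈ Ico 1 s, κ (i + 1) * R c * (2 * P S R i (S u ∩ S v ∩ S c)
        + 2 * β (i + 1) ^ 2 * P S R i (D S κ s R c (i + 1))
        - β (i + 1) * (P S R i (S u ∩ D S κ s R c (i + 1)) -
          P S R i (S u ∩ S v ∩ D S κ s R c (i + 1)))) := by
    intro c _
    rw [Finset.range_eq_Ico, Finset.sum_eq_sum_Ico_succ_bot (by omega)]
    rw [if_pos rfl]
    congr 1
    refine Finset.sum_congr rfl fun i hi => ?_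
    have := (Finset.mem_Ico.1 hi).1
    rw [if_neg (by omega), sum_bd]
  rw [Finset.sum_congr rfl h3, Finset.sum_add_distrib, ← Finset.mul_sum, Finset.sum_comm]
  unfold E
  congr 1
  refine Finset.sum_congr rfl fun i _ => ?_
  have h4 : P S R (i + 1) (S u ∩ S v) = ∑ c ∈ S u ∩ S v, R c * P S R i (S u ∩ S v ∩ S c) := rfl
  rw [h4, Finset.mul_sum, Finset.mul_sum, Finset.mul_sum, ← Finset.sum_add_distrib,
    ← Finset.sum_sub_distrib, Finset.mul_sum]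
  refine Finset.sum_congr rfl fun c _ => ?_
  ring

end Helper36.Frac
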