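import Pool.Agent.Helper36.Frac.PLem
import Pool.Agent.Helper50.FracR.Tilt

/-!
# Module M4: the process
-/

open Finset

namespace Helper36.Frac

open Helper50.Frac (Loc)
open Helper50.FracR

section cong

variable {S : ℕ → Finset ℕ} {κ β : ℕ → ℝ} {s : ℕ} {L : ℝ} {R R' : ℕ → ℝ}

theorem P_congr (i : ℕ) (A : Finset ℕ) (h : ∀ x ∈ A, R x = R' x) : P S R i A = P S R' i A := by
  induction i generalizing A with
  | zero => rfl
  | succ i ih =>
    rw [P, P]
    refine Finset.sum_congr rfl fun c hc => ?_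
    rw [h c hc, ih (A ∩ S c) fun x hx => h x (Finset.mem_inter.1 hx).1]

variable (hS : ∀ v, ∀ u ∈ S v, u < v)

include hS

theorem D_congr {x : ℕ} (h : ∀ y < x, R y = R' y) (j : ℕ) : D S κ s R x j = D S κ s R' x j := by
  unfold D
  refine Finset.filter_congr fun u hu => ?_
  have : ∀ i, P S R i (S u ∩ S x) = P S R' i (S u ∩ S x) := fun i =>
    P_congr i _ fun y hy => h y (hS x y (Finset.mem_inter.1 hy).2)
  simp only [this]

theorem mult_congr {K : Item} (h : ∀ y < K.1, R y = R' y) (v : ℕ) :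
    mult S κ β s R v K = mult S κ β s R' v K := by
  unfold mult
  rw [D_congr hS h]

omit hS in
theorem rate_congr {K : Item} (hK : ∀ x ∈ K.2.2, x < K.1) (h : ∀ y ≤ K.1, R y = R' y) :
    rate κ R K = rate κ R' K := by
  unfold rate
  rw [h K.1 le_rfl]
  have : K.2.2.map R = K.2.2.map R' := List.map_congr_left fun x hx => h x (hK x hx).le
  rw [this]

omit hS in
theorem mem_U {A : Finset ℕ} {K : Item} :
    K ∈ U S s A ↔ K.1 ∈ A ∧ K.2.1 < s ∧ K.2.2 ∈ cl S K.2.1 (S K.1) := by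
  simp [U]

theorem U_lt {K : Item} (hK : K.2.2 ∈ cl S K.2.1 (S K.1)) : ∀ x ∈ K.2.2, x < K.1 := by
  intro x hx
  exact hS _ _ ((mem_cl.1 hK).2.1 x hx)

theorem N_congr {u : ℕ} (v : ℕ) (h : ∀ y < u, R y = R' y) :
    N S κ β s R u v = N S κ β s R' u v := by
  unfold N
  refine Finset.prod_congr rfl fun K hK => ?_
  have hK' := mem_U.1 hK
  have hlt : K.1 < u := hS u _ (Finset.mem_inter.1 hK'.1).1
  have h1 : ∀ y < K.1, R y = R' y := fun y hy => h y (hy.trans hlt)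
  rw [mult_congr hS h1, mult_congr hS h1, rate_congr (U_lt hS hK'.2.2) fun y hy =>
    h y (lt_of_le_of_lt hy hlt)]

theorem HypN_congr {v : ℕ} (h : ∀ y < v, R y = R' y) :
    HypN S κ β s L R v ↔ HypN S κ β s L R' v := by
  unfold HypN
  have : ∑ u ∈ S v, R u / N S κ β s R u v = ∑ u ∈ S v, R' u / N S κ β s R' u v := by
    refine Finset.sum_congr rfl fun u hu => ?_
    have hu' := hS v u hu
    rw [h u hu', N_congr hS v fun y hy => h y (hy.trans hu')]
  rw [this]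

end cong

/-- the density of the law of `v` -/
noncomputable def Zd (S : ℕ → Finset ℕ) (κ β : ℕ → ℝ) (s : ℕ) (R : ℕ → ℝ) (v : ℕ)
    (ω : Finset Item) : ℝ :=
  ∏ K ∈ U S s (S v), (if K ∈ ω then mult S κ β s R v K else
    (1 - mult S κ β s R v K * rate κ R K) / (1 - rate κ R K))

open Classical in
/-- the rate of `v`, in terms of the earlier rates -/
noncomputable def RF (S : ℕ → Finset ℕ) (κ β : ℕ → ℝ) (s : ℕ) (L p : ℝ) (n : ℕ) (v : ℕ)
    (R : ℕ → ℝ) (ω : Finset Item) : ℝ :=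
  if v < n ∧ HypN S κ β s L R v ∧ Zd S κ β s R v ω ≤ 4 * N S κ β s R v v then
    p * Zd S κ β s R v ω else 0

/-- the rate of `v` -/
noncomputable def RPr (S : ℕ → Finset ℕ) (κ β : ℕ → ℝ) (s : ℕ) (L p : ℝ) (n : ℕ) (v : ℕ)
    (ω : Finset Item) : ℝ :=
  RF S κ β s L p n v (fun u => if _h : u < v then RPr S κ β s L p n u ω else 0) ω
termination_by v

section process

variable {S : ℕ → Finset ℕ} {κ β : ℕ → ℝ} {s n : ℕ} {L p : ℝ}
variable (hS : ∀ v, ∀ u ∈ S v, u < v)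

include hS

theorem Zd_congr {R R' : ℕ → ℝ} {v : ℕ} {ω ω' : Finset Item} (h : ∀ y < v, R y = R' y)
    (hω : ∀ K : Item, K.1 < v → (K ∈ ω ↔ K ∈ ω')) :
    Zd S κ β s R v ω = Zd S κ β s R' v ω' := by
  unfold Zd
  refine Finset.prod_congr rfl fun K hK => ?_
  have hK' := mem_U.1 hK
  have hlt : K.1 < v := hS v _ hK'.1
  rw [mult_congr hS fun y hy => h y (hy.trans hlt), rate_congr (U_lt hS hK'.2.2) fun y hy =>
    h y (lt_of_le_of_lt hy hlt)]
  by_cases h1 : K ∈ ω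
  · rw [if_pos h1, if_pos ((hω K hlt).1 h1)]
  · rw [if_neg h1, if_neg fun h2 => h1 ((hω K hlt).2 h2)]

theorem RF_congr {R R' : ℕ → ℝ} {v : ℕ} {ω ω' : Finset Item} (h : ∀ y < v, R y = R' y)
    (hω : ∀ K : Item, K.1 < v → (K ∈ ω ↔ K ∈ ω')) :
    RF S κ β s L p n v R ω = RF S κ β s L p n v R' ω' := by
  have e := HypN_congr (κ := κ) (β := β) (s := s) (L := L) hS h
  have e2 := Zd_congr (κ := κ) (β := β) (s := s) hS h hω
  have e3 := N_congr (κ := κ) (β := β) (s := s) hS v h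
  unfold RF
  rw [e2, e3]
  by_cases h1 : v < n ∧ HypN S κ β s L R' v ∧ Zd S κ β s R' v ω' ≤ 4 * N S κ β s R' v v
  · rw [if_pos h1, if_pos ⟨h1.1, e.2 h1.2.1, h1.2.2⟩]
  · rw [if_neg h1, if_neg fun h2 => h1 ⟨h2.1, e.1 h2.2.1, h2.2.2⟩]

theorem RPr_eq (v : ℕ) (ω : Finset Item) :
    RPr S κ β s L p n v ω = RF S κ β s L p n v (fun u => RPr S κ β s L p n u ω) ω := by
  rw [RPr]
  refine RF_congr hS (fun u hu => ?_) fun _ _ => Iff.rfl
  simp [hu]

theorem RPr_loc (v : ℕ) (a : Item) (ω : Finset Item) (h : v ≤ a.1) :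
    RPr S κ β s L p n v (insert a ω) = RPr S κ β s L p n v ω := by
  induction v using Nat.strong_induction_on with
  | _ v ih =>
    rw [RPr_eq hS, RPr_eq hS]
    refine RF_congr hS (fun u hu => ih u hu (hu.le.trans h)) fun K hK => ?_
    have : K ≠ a := by
      rintro rfl
      omega
    simp [this]

variable {d : ℕ} {qmax : ℝ} (hs : 1 ≤ s) (hκ1 : κ 1 = 1)
  (hκ : ∀ i, 1 ≤ κ i) (hβ0 : ∀ i, 0 ≤ β i) (hβ1 : ∀ i, β i ≤ 1) (hp : 0 < p) (hL : 0 < L)
  (hq0 : 0 ≤ qmax) (hq : ∀ i, 1 ≤ i → i ≤ s → κ i * qmax ^ i ≤ 1 / 4)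
  (hb : ∀ (R : ℕ → ℝ) (v : ℕ), v < n → (∀ x, 0 ≤ R x ∧ R x ≤ qmax) →
    (∀ x < v, 0 < R x → HypN S κ β s L R x) → HypN S κ β s L R v →
    4 * p * N S κ β s R v v ≤ qmax)

omit hS in
include hβ0 hβ1 in
theorem mult_bounds (R : ℕ → ℝ) (v : ℕ) (K : Item) :
    0 ≤ mult S κ β s R v K ∧ mult S κ β s R v K ≤ 2 := by
  unfold mult
  have h1 := hβ0 (K.2.1 + 1)
  have h2 := hβ1 (K.2.1 + 1)
  split_ifs <;> constructor <;> linarith

omit hS in
include hκ hq0 hq in
theorem rate_bounds {R : ℕ → ℝ} (hR : ∀ x, 0 ≤ R x ∧ R x ≤ qmax) {K : Item} (hK : K.2.1 < s)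
    (hl : K.2.2.length = K.2.1) : 0 ≤ rate κ R K ∧ rate κ R K ≤ 1 / 4 := by
  have h0 : ∀ l : List ℕ, 0 ≤ (l.map R).prod ∧ (l.map R).prod ≤ qmax ^ l.length := by
    intro l
    induction l with
    | nil => simp
    | cons a l ih =>
      simp only [List.map_cons, List.prod_cons, List.length_cons, pow_succ']
      exact ⟨mul_nonneg (hR a).1 ih.1, mul_le_mul (hR a).2 ih.2 ih.1 hq0⟩
  have h1 := h0 K.2.2
  rw [hl] at h1
  have h2 := hκ (K.2.1 + 1)
  have h3 : 0 ≤ R K.1 * (K.2.2.map R).prod := mul_nonneg (hR _).1 h1.1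
  have h4 : R K.1 * (K.2.2.map R).prod ≤ qmax ^ (K.2.1 + 1) := by
    rw [pow_succ']
    exact mul_le_mul (hR _).2 h1.2 h1.1 hq0
  unfold rate
  refine ⟨by positivity, ?_⟩
  refine le_trans ?_ (hq (K.2.1 + 1) (by omega) (by omega))
  exact mul_le_mul_of_nonneg_left h4 (by linarith)

include hκ hβ0 hβ1 hp hq0 hq hb in
/-- bounds for the rates, and the first condition -/
theorem RPr_bounds (v : ℕ) (ω : Finset Item) :
    0 ≤ RPr S κ β s L p n v ω ∧ RPr S κ β s L p n v ω ≤ qmax ∧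
      (0 < RPr S κ β s L p n v ω → HypN S κ β s L (fun u => RPr S κ β s L p n u ω) v) := by
  induction v using Nat.strong_induction_on with
  | _ v ih =>
    set R : ℕ → ℝ := fun u => if u < v then RPr S κ β s L p n u ω else 0 with hR
    set R' : ℕ → ℝ := fun u => RPr S κ β s L p n u ω with hR'
    have hag : ∀ y < v, R y = R' y := fun y hy => by simp [hR, hR', hy]
    have hRb : ∀ x, 0 ≤ R x ∧ R x ≤ qmax := by
      intro x
      by_cases hx : x < v
      · rw [hag x hx]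
        exact ⟨(ih x hx).1, (ih x hx).2.1⟩
      · simp [hR, hx, hq0]
    have hRh : ∀ x < v, 0 < R x → HypN S κ β s L R x := by
      intro x hx h
      rw [hag x hx] at h
      exact (HypN_congr hS fun y hy => hag y (hy.trans hx)).2 ((ih x hx).2.2 h)
    have hZ0 : 0 ≤ Zd S κ β s R v ω := by
      unfold Zd
      refine Finset.prod_nonneg fun K hK => ?_
      have hK' := mem_U.1 hK
      have h1 := mult_bounds hβ0 hβ1 R v K (S := S) (κ := κ) (s := s)
      have h2 := rate_bounds hκ hq0 hq hRb hK'.2.1 (mem_cl.1 hK'.2.2).1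
      split_ifs
      · exact h1.1
      · exact div_nonneg (by nlinarith [h1.1, h1.2, h2.1, h2.2]) (by linarith [h2.2])
    have he : RPr S κ β s L p n v ω = RF S κ β s L p n v R ω := by
      rw [RPr_eq hS]
      exact RF_congr hS (fun y hy => (hag y hy).symm) fun _ _ => Iff.rfl
    rw [he]
    unfold RF
    split_ifs with h
    · refine ⟨mul_nonneg hp.le hZ0, ?_, fun _ => ?_⟩
      · refine le_trans ?_ (hb R v h.1 hRb hRh h.2.1)
        calc p * Zd S κ β s R v ω ≤ p * (4 * N S κ β s R v v) :=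
              mul_le_mul_of_nonneg_left h.2.2 hp.le
          _ = _ := by ring
      · exact (HypN_congr hS hag).1 h.2.1
    · exact ⟨le_rfl, hq0, fun h => absurd h (lt_irrefl _)⟩

end process

/-- the probability of an item -/
noncomputable def iqq (S : ℕ → Finset ℕ) (κ β : ℕ → ℝ) (s : ℕ) (L p : ℝ) (n : ℕ) (K : Item)
    (ω : Finset Item) : ℝ :=
  if K.2.1 < s ∧ K.2.2 ∈ cl S K.2.1 (S K.1) then
    rate κ (fun u => RPr S κ β s L p n u ω) K else 0

/-- the multipliers -/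
noncomputable def mm (S : ℕ → Finset ℕ) (κ β : ℕ → ℝ) (s : ℕ) (L p : ℝ) (n : ℕ) (v : ℕ) (K : Item)
    (ω : Finset Item) : ℝ :=
  mult S κ β s (fun u => RPr S κ β s L p n u ω) v K

section main

variable {S : ℕ → Finset ℕ} {κ β : ℕ → ℝ} {s n : ℕ} {L p : ℝ}
variable (hS : ∀ v, ∀ u ∈ S v, u < v)

theorem iqq_U {A : Finset ℕ} {K : Item} (hK : K ∈ U S s A) (ω : Finset Item) :
    iqq S κ β s L p n K ω = rate κ (fun u => RPr S κ β s L p n u ω) K := by
  have := mem_U.1 hK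
  rw [iqq, if_pos ⟨this.2.1, this.2.2⟩]

include hS in
theorem iqq_loc : Loc (fun K : Item => K.1) (iqq S κ β s L p n) := by
  intro i a ω h
  unfold iqq
  by_cases h1 : i.2.1 < s ∧ i.2.2 ∈ cl S i.2.1 (S i.1)
  · rw [if_pos h1, if_pos h1]
    exact rate_congr (U_lt hS h1.2) fun y hy => RPr_loc hS y a ω (hy.trans h)
  · rw [if_neg h1, if_neg h1]

include hS in
theorem mm_loc (v : ℕ) : Loc (fun K : Item => K.1) (mm S κ β s L p n v) := by
  intro i a ω h
  exact mult_congr hS (fun y hy => RPr_loc hS y a ω (hy.le.trans h)) v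

variable {d : ℕ} {qmax : ℝ} (hs : 1 ≤ s) (hκ1 : κ 1 = 1)
  (hκ : ∀ i, 1 ≤ κ i) (hβ0 : ∀ i, 0 ≤ β i) (hβ1 : ∀ i, β i ≤ 1) (hp : 0 < p) (hL : 0 < L)
  (hq0 : 0 ≤ qmax) (hq : ∀ i, 1 ≤ i → i ≤ s → κ i * qmax ^ i ≤ 1 / 4)
  (hb : ∀ (R : ℕ → ℝ) (v : ℕ), v < n → (∀ x, 0 ≤ R x ∧ R x ≤ qmax) →
    (∀ x < v, 0 < R x → HypN S κ β s L R x) → HypN S κ β s L R v →
    4 * p * N S κ β s R v v ≤ qmax)

include hβ0 in
theorem mm_nonneg (hβ1 : ∀ i, β i ≤ 1) (v : ℕ) (K : Item) (ω : Finset Item) :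
    0 ≤ mm S κ β s L p n v K ω := (mult_bounds hβ0 hβ1 _ v K).1

include hβ0 hβ1 in
theorem mm_le (v : ℕ) (K : Item) (ω : Finset Item) : mm S κ β s L p n v K ω ≤ 2 :=
  (mult_bounds hβ0 hβ1 _ v K).2

include hS hκ hβ0 hβ1 hp hq0 hq hb in
theorem iqq_bounds (K : Item) (ω : Finset Item) :
    0 ≤ iqq S κ β s L p n K ω ∧ iqq S κ β s L p n K ω ≤ 1 / 4 := by
  unfold iqq
  split_ifs with h
  · exact rate_bounds hκ hq0 hq
      (fun x => ⟨(RPr_bounds hS hκ hβ0 hβ1 hp hq0 hq hb x ω).1,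
        (RPr_bounds hS hκ hβ0 hβ1 hp hq0 hq hb x ω).2.1⟩) h.1 (mem_cl.1 h.2).1
  · exact ⟨le_rfl, by norm_num⟩

theorem Zd_eq (v : ℕ) (ω : Finset Item) :
    Zd S κ β s (fun u => RPr S κ β s L p n u ω) v ω =
      ∏ K ∈ U S s (S v), rat (iqq S κ β s L p n) (mm S κ β s L p n v) K ω := by
  unfold Zd
  refine Finset.prod_congr rfl fun K hK => ?_
  unfold rat
  rw [iqq_U hK]
  rfl

theorem N_eq (u v : ℕ) (ω : Finset Item) :
    N S κ β s (fun u => RPr S κ β s L p n u ω) u v =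
      ∏ K ∈ U S s (S u), nrm (iqq S κ β s L p n) (mm S κ β s L p n u) (mm S κ β s L p n v) K ω := by
  unfold N
  have hsub : U S s (S u ∩ S v) ⊆ U S s (S u) := by
    intro K hK
    have := mem_U.1 hK
    exact mem_U.2 ⟨(Finset.mem_inter.1 this.1).1, this.2⟩
  rw [← Finset.prod_subset hsub]
  · refine Finset.prod_congr rfl fun K hK => ?_
    unfold nrm nn
    rw [iqq_U hK]
    rfl
  · intro K hK hK'
    have h1 := mem_U.1 hK
    have h2 : K.1 ∉ S v := fun h => hK' (mem_U.2 ⟨Finset.mem_inter.2 ⟨h1.1, h⟩, h1.2⟩)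
    have : mm S κ β s L p n v K ω = 1 := by
      unfold mm mult
      rw [if_neg h2]
    unfold nrm
    rw [this]
    ring

include hS hκ hβ0 hβ1 hp hq0 hq hb in
theorem N_pos' (u v : ℕ) (ω : Finset Item) :
    0 < N S κ β s (fun u => RPr S κ β s L p n u ω) u v := by
  rw [N_eq]
  exact Finset.prod_pos fun K _ => nrm_pos
    (fun i ω => (iqq_bounds hS hκ hβ0 hβ1 hp hq0 hq hb i ω).1)
    (fun i ω => (iqq_bounds hS hκ hβ0 hβ1 hp hq0 hq hb i ω).2)
    (fun i ω => mm_nonneg hβ0 hβ1 u i ω) (fun i ω => mm_le hβ0 hβ1 u i ω)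
    (fun i ω => mm_nonneg hβ0 hβ1 v i ω) (fun i ω => mm_le hβ0 hβ1 v i ω) K ω

include hS hκ hβ0 hβ1 hp hq0 hq hb in
theorem Zd_nonneg (v : ℕ) (ω : Finset Item) :
    0 ≤ Zd S κ β s (fun u => RPr S κ β s L p n u ω) v ω := by
  rw [Zd_eq]
  refine Finset.prod_nonneg fun K _ => ?_
  have h1 := iqq_bounds hS hκ hβ0 hβ1 hp hq0 hq hb K ω
  have h2 := mq_le (m := mm S κ β s L p n v) (fun i ω => (iqq_bounds hS hκ hβ0 hβ1 hp hq0 hq hb i ω).1)
    (fun i ω => (iqq_bounds hS hκ hβ0 hβ1 hp hq0 hq hb i ω).2)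
    (fun i ω => mm_nonneg hβ0 hβ1 v i ω) (fun i ω => mm_le hβ0 hβ1 v i ω) K ω
  unfold rat
  split_ifs
  · exact mm_nonneg hβ0 hβ1 v K ω
  · exact div_nonneg (by linarith [h2.2]) (by linarith [h1.2])

include hS hκ hβ0 hβ1 hp hq0 hq hb in
theorem RPr_le (v : ℕ) (ω : Finset Item) : RPr S κ β s L p n v ω ≤
    p * Zd S κ β s (fun u => RPr S κ β s L p n u ω) v ω := by
  rw [RPr_eq hS]
  unfold RF
  split_ifs
  · exact le_rfl
  · exact mul_nonneg hp.le (Zd_nonneg hS hκ hβ0 hβ1 hp hq0 hq hb v ω)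

include hS hκ hβ0 hβ1 hp hq0 hq hb in
/-- the pair inequality for the process -/
theorem pair (u v : ℕ) (hu : u ≤ n) :
    ∑ ω ∈ (U S s (range n)).powerset,
      TW (iqq S κ β s L p n) (mm S κ β s L p n v) (U S s (range n)) ω *
      (Zd S κ β s (fun u => RPr S κ β s L p n u ω) u ω /
        N S κ β s (fun u => RPr S κ β s L p n u ω) u v) ≤ 1 := by
  have hsub : U S s (S u) ⊆ U S s (range n) := by
    intro K hK
    have := mem_U.1 hK
    exact mem_U.2 ⟨Finset.mem_range.2 ((hS u _ this.1).trans_le hu), this.2⟩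
  have := TW_pair (m := mm S κ β s L p n v) (m' := mm S κ β s L p n u)
    (iqq_loc hS) (mm_loc hS v) (mm_loc hS u)
    (fun i ω => (iqq_bounds hS hκ hβ0 hβ1 hp hq0 hq hb i ω).1)
    (fun i ω => (iqq_bounds hS hκ hβ0 hβ1 hp hq0 hq hb i ω).2)
    (fun i ω => mm_nonneg hβ0 hβ1 v i ω) (fun i ω => mm_le hβ0 hβ1 v i ω)
    (fun i ω => mm_nonneg hβ0 hβ1 u i ω) (fun i ω => mm_le hβ0 hβ1 u i ω)
    (U S s (range n)) (U S s (S u)) hsub
  refine le_trans (le_of_eq ?_) this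
  refine Finset.sum_congr rfl fun ω _ => ?_
  rw [Zd_eq, N_eq]

omit hS in
theorem markov' {α : Type*} (s : Finset α) (w f : α → ℝ) (hw : ∀ i ∈ s, 0 ≤ w i)
    (hf : ∀ i ∈ s, 0 ≤ f i) (K : ℝ) (hK : 0 < K) (P : α → Prop) [DecidablePred P]
    (hP : ∀ i ∈ s, P i → K < f i) :
    ∑ i ∈ s, (if P i then w i else 0) ≤ (∑ i ∈ s, w i * f i) / K := by
  rw [Finset.sum_div]
  refine Finset.sum_le_sum fun i hi => ?_
  have h1 := hw i hi
  split_ifs with h
  · rw [le_div_iff₀ hK]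
    exact mul_le_mul_of_nonneg_left (hP i hi h).le h1
  · have := hf i hi
    positivity

include hS hκ hβ0 hβ1 hp hq0 hq hb in
theorem TWv_nonneg (v : ℕ) (V ω : Finset Item) :
    0 ≤ TW (iqq S κ β s L p n) (mm S κ β s L p n v) V ω :=
  TW_nonneg (iqq_loc hS) (mm_loc hS v)
    (fun i ω => (iqq_bounds hS hκ hβ0 hβ1 hp hq0 hq hb i ω).1)
    (fun i ω => (iqq_bounds hS hκ hβ0 hβ1 hp hq0 hq hb i ω).2)
    (fun i ω => mm_nonneg hβ0 hβ1 v i ω) (fun i ω => mm_le hβ0 hβ1 v i ω) _ _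

include hS hκ hβ0 hβ1 hp hL hq0 hq hb in
open Classical in
/-- failure of the first condition -/
theorem fail1 (v : ℕ) (hv : v < n) (hcard : (S v).card ≤ d) (hpd : p * d ≤ L) :
    ∑ ω ∈ (U S s (range n)).powerset,
      (if ¬ HypN S κ β s L (fun u => RPr S κ β s L p n u ω) v then
        TW (iqq S κ β s L p n) (mm S κ β s L p n v) (U S s (range n)) ω else 0) ≤ 1 / 4 := by
  have hN := N_pos' (n := n) (L := L) hS hκ hβ0 hβ1 hp hq0 hq hb
  have hR0 : ∀ u ω, 0 ≤ RPr S κ β s L p n u ω := fun u ω =>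
    (RPr_bounds hS hκ hβ0 hβ1 hp hq0 hq hb u ω).1
  have hTW := TWv_nonneg (n := n) (L := L) hS hκ hβ0 hβ1 hp hq0 hq hb
  refine (markov' _ _ (fun ω => ∑ u ∈ S v, RPr S κ β s L p n u ω /
    N S κ β s (fun u => RPr S κ β s L p n u ω) u v) (fun ω _ => hTW v _ ω)
    (fun ω _ => Finset.sum_nonneg fun u _ => div_nonneg (hR0 u ω) (hN u v ω).le)
    (4 * L) (by positivity) _ (fun ω _ h => not_le.1 h)).trans ?_
  rw [div_le_iff₀ (by positivity)]
  have key : ∀ u ∈ S v, ∑ ω ∈ (U S s (range n)).powerset,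
      TW (iqq S κ β s L p n) (mm S κ β s L p n v) (U S s (range n)) ω *
      (RPr S κ β s L p n u ω / N S κ β s (fun u => RPr S κ β s L p n u ω) u v) ≤ p := by
    intro u hu
    have h1 := pair (n := n) (L := L) hS hκ hβ0 hβ1 hp hq0 hq hb u v ((hS v u hu).trans hv).le
    calc _ ≤ ∑ ω ∈ (U S s (range n)).powerset, p *
          (TW (iqq S κ β s L p n) (mm S κ β s L p n v) (U S s (range n)) ω *
          (Zd S κ β s (fun u => RPr S κ β s L p n u ω) u ω /
            N S κ β s (fun u => RPr S κ β s L p n u ω) u v)) := by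
          refine Finset.sum_le_sum fun ω _ => ?_
          have h2 := RPr_le (n := n) (L := L) hS hκ hβ0 hβ1 hp hq0 hq hb u ω
          calc _ ≤ TW (iqq S κ β s L p n) (mm S κ β s L p n v) (U S s (range n)) ω *
                (p * Zd S κ β s (fun u => RPr S κ β s L p n u ω) u ω /
                  N S κ β s (fun u => RPr S κ β s L p n u ω) u v) := by
                refine mul_le_mul_of_nonneg_left ?_ (hTW v _ ω)
                exact div_le_div_of_nonneg_right h2 (hN u v ω).le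
            _ = _ := by ring
      _ ≤ p * 1 := by
          rw [← Finset.mul_sum]
          exact mul_le_mul_of_nonneg_left h1 hp.le
      _ = p := mul_one p
  calc ∑ ω ∈ (U S s (range n)).powerset,
        TW (iqq S κ β s L p n) (mm S κ β s L p n v) (U S s (range n)) ω *
        ∑ u ∈ S v, RPr S κ β s L p n u ω / N S κ β s (fun u => RPr S κ β s L p n u ω) u v
      = ∑ u ∈ S v, ∑ ω ∈ (U S s (range n)).powerset,
        TW (iqq S κ β s L p n) (mm S κ β s L p n v) (U S s (range n)) ω *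
        (RPr S κ β s L p n u ω / N S κ β s (fun u => RPr S κ β s L p n u ω) u v) := by
        rw [Finset.sum_comm]
        exact Finset.sum_congr rfl fun ω _ => Finset.mul_sum _ _ _
    _ ≤ ∑ _u ∈ S v, p := Finset.sum_le_sum key
    _ = (S v).card * p := by rw [Finset.sum_const, nsmul_eq_mul]
    _ ≤ d * p := by
        have : ((S v).card : ℝ) ≤ d := by exact_mod_cast hcard
        exact mul_le_mul_of_nonneg_right this hp.le
    _ ≤ 1 / 4 * (4 * L) := by linarith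

include hS hκ hβ0 hβ1 hp hq0 hq hb in
open Classical in
/-- failure of the second condition -/
theorem fail2 (v : ℕ) (hv : v < n) :
    ∑ ω ∈ (U S s (range n)).powerset,
      (if 4 * N S κ β s (fun u => RPr S κ β s L p n u ω) v v <
          Zd S κ β s (fun u => RPr S κ β s L p n u ω) v ω then
        TW (iqq S κ β s L p n) (mm S κ β s L p n v) (U S s (range n)) ω else 0) ≤ 1 / 4 := by
  have hN := N_pos' (n := n) (L := L) hS hκ hβ0 hβ1 hp hq0 hq hb
  have hTW := TWv_nonneg (n := n) (L := L) hS hκ hβ0 hβ1 hp hq0 hq hb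
  have hZ := Zd_nonneg (n := n) (L := L) hS hκ hβ0 hβ1 hp hq0 hq hb
  refine (markov' _ _ (fun ω => Zd S κ β s (fun u => RPr S κ β s L p n u ω) v ω /
    N S κ β s (fun u => RPr S κ β s L p n u ω) v v) (fun ω _ => hTW v _ ω)
    (fun ω _ => div_nonneg (hZ v ω) (hN v v ω).le)
    4 (by norm_num) _ (fun ω _ h => ?_)).trans ?_
  · rw [lt_div_iff₀ (hN v v ω)]
    exact h
  · have h1 := pair (n := n) (L := L) hS hκ hβ0 hβ1 hp hq0 hq hb v v hv.le
    linarith

include hS hs hκ1 hκ hβ0 hβ1 hp hL hq0 hq hb in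
open Classical in
/-- every vertex is on with probability at least `p / 2` -/
theorem hit (v : ℕ) (hv : v < n) (hcard : (S v).card ≤ d) (hpd : p * d ≤ L) :
    p / 2 ≤ ∑ ω ∈ (U S s (range n)).powerset, (if (⟨v, 0, []⟩ : Item) ∈ ω then
      TW (iqq S κ β s L p n) (fun _ _ => 1) (U S s (range n)) ω else 0) := by
  have hmem : (⟨v, 0, []⟩ : Item) ∈ U S s (range n) :=
    mem_U.2 ⟨Finset.mem_range.2 hv, hs, by simp [cl]⟩
  rw [TW_item (iqq_loc hS)
    (fun i ω => (iqq_bounds hS hκ hβ0 hβ1 hp hq0 hq hb i ω).1)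
    (fun i ω => (iqq_bounds hS hκ hβ0 hβ1 hp hq0 hq hb i ω).2) _ _ hmem]
  have hsub : U S s (S v) ⊆ U S s (range n) := by
    intro K hK
    have := mem_U.1 hK
    exact mem_U.2 ⟨Finset.mem_range.2 ((hS v _ this.1).trans hv), this.2⟩
  have hTW := TWv_nonneg (n := n) (L := L) hS hκ hβ0 hβ1 hp hq0 hq hb v (U S s (range n))
  have key : ∀ ω, p * (TW (iqq S κ β s L p n) (mm S κ β s L p n v) (U S s (range n)) ω -
      (if ¬ HypN S κ β s L (fun u => RPr S κ β s L p n u ω) v then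
        TW (iqq S κ β s L p n) (mm S κ β s L p n v) (U S s (range n)) ω else 0) -
      (if 4 * N S κ β s (fun u => RPr S κ β s L p n u ω) v v <
          Zd S κ β s (fun u => RPr S κ β s L p n u ω) v ω then
        TW (iqq S κ β s L p n) (mm S κ β s L p n v) (U S s (range n)) ω else 0)) ≤
      iqq S κ β s L p n ⟨v, 0, []⟩ ω *
        TW (iqq S κ β s L p n) (fun _ _ => 1) (U S s (range n)) ω := by
    intro ω
    have e1 : iqq S κ β s L p n ⟨v, 0, []⟩ ω = RPr S κ β s L p n v ω := by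
      rw [iqq_U hmem]
      simp [rate, hκ1]
    have e2 := TW_density (q := iqq S κ β s L p n) (m := mm S κ β s L p n v)
      (fun i ω => (iqq_bounds hS hκ hβ0 hβ1 hp hq0 hq hb i ω).2)
      (U S s (range n)) (U S s (S v)) hsub ω (fun K hK hK' => by
        have h1 := mem_U.1 hK
        have h2 : K.1 ∉ S v := fun h => hK' (mem_U.2 ⟨h, h1.2⟩)
        unfold mm mult
        rw [if_neg h2])
    rw [← Zd_eq] at e2
    have h0 := hTW ω
    have hRR : 0 ≤ RPr S κ β s L p n v ω := (RPr_bounds hS hκ hβ0 hβ1 hp hq0 hq hb v ω).1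
    have hT1 : 0 ≤ TW (iqq S κ β s L p n) (fun _ _ => 1) (U S s (range n)) ω :=
      TW_nonneg (iqq_loc hS) (fun _ _ _ _ => rfl)
        (fun i ω => (iqq_bounds hS hκ hβ0 hβ1 hp hq0 hq hb i ω).1)
        (fun i ω => (iqq_bounds hS hκ hβ0 hβ1 hp hq0 hq hb i ω).2)
        (fun _ _ => by norm_num) (fun _ _ => by norm_num) _ _
    rw [e1]
    by_cases h1 : HypN S κ β s L (fun u => RPr S κ β s L p n u ω) v
    · by_cases h2 : 4 * N S κ β s (fun u => RPr S κ β s L p n u ω) v v <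
          Zd S κ β s (fun u => RPr S κ β s L p n u ω) v ω
      · rw [if_neg (not_not.2 h1), if_pos h2]
        have := mul_nonneg hRR hT1
        linarith
      · rw [if_neg (not_not.2 h1), if_neg h2, RPr_eq hS]
        unfold RF
        rw [if_pos ⟨hv, h1, not_lt.1 h2⟩, ← e2]
        apply le_of_eq
        ring
    · rw [if_pos h1]
      have h3 := mul_nonneg hRR hT1
      have h4 : 0 ≤ (if 4 * N S κ β s (fun u => RPr S κ β s L p n u ω) v v <
          Zd S κ β s (fun u => RPr S κ β s L p n u ω) v ω then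
        TW (iqq S κ β s L p n) (mm S κ β s L p n v) (U S s (range n)) ω else 0) := by
        split_ifs
        · exact h0
        · exact le_rfl
      have h5 := mul_nonneg hp.le h4
      linarith
  refine le_trans ?_ (Finset.sum_le_sum fun ω _ => key ω)
  rw [← Finset.mul_sum, Finset.sum_sub_distrib, Finset.sum_sub_distrib]
  have h1 := TW_sum (m := mm S κ β s L p n v) (iqq_loc hS) (mm_loc hS v)
    (fun i ω => (iqq_bounds hS hκ hβ0 hβ1 hp hq0 hq hb i ω).1)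
    (fun i ω => (iqq_bounds hS hκ hβ0 hβ1 hp hq0 hq hb i ω).2)
    (fun i ω => mm_nonneg hβ0 hβ1 v i ω) (fun i ω => mm_le hβ0 hβ1 v i ω) (U S s (range n))
  have h2 := fail1 hS hκ hβ0 hβ1 hp hL hq0 hq hb v hv hcard hpd
  have h3 := fail2 (L := L) hS hκ hβ0 hβ1 hp hq0 hq hb v hv
  rw [h1]
  calc p / 2 = p * (1 / 2) := by ring
    _ ≤ _ := mul_le_mul_of_nonneg_left (by linarith) hp.le

include hS hs hκ1 in
theorem indep (v u : ℕ) (hv : v < n) (hu : u ∈ S v) (ω : Finset Item)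
    (h1 : (⟨v, 0, []⟩ : Item) ∈ ω) (h2 : (⟨u, 0, []⟩ : Item) ∈ ω) :
    TW (iqq S κ β s L p n) (fun _ _ => 1) (U S s (range n)) ω = 0 := by
  have hmem : (⟨v, 0, []⟩ : Item) ∈ U S s (range n) :=
    mem_U.2 ⟨Finset.mem_range.2 hv, hs, by simp [cl]⟩
  have hmem' : (⟨u, 0, []⟩ : Item) ∈ U S s (S v) :=
    mem_U.2 ⟨hu, hs, by simp [cl]⟩
  have e1 : iqq S κ β s L p n ⟨v, 0, []⟩ ω = RPr S κ β s L p n v ω := by
    rw [iqq_U hmem]
    simp [rate, hκ1]
  have hZ : Zd S κ β s (fun u => RPr S κ β s L p n u ω) v ω = 0 := by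
    refine Finset.prod_eq_zero hmem' ?_
    rw [if_pos h2]
    simp [mult, hu]
  have hR : RPr S κ β s L p n v ω = 0 := by
    rw [RPr_eq hS]
    unfold RF
    rw [hZ]
    simp
  refine Finset.prod_eq_zero hmem ?_
  unfold tf
  rw [if_pos h1, e1, hR]
  simp

end main

theorem prob {S : ℕ → Finset ℕ} {κ β : ℕ → ℝ} {s : ℕ} {L : ℝ}
    {n d : ℕ} {p qmax : ℝ} (hS : ∀ v, ∀ u ∈ S v, u < v) (hs : 1 ≤ s) (hκ1 : κ 1 = 1)
    (hκ : ∀ i, 1 ≤ κ i) (hβ0 : ∀ i, 0 ≤ β i) (hβ1 : ∀ i, β i ≤ 1) (hp : 0 < p) (hL : 0 < L)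
    (hcard : ∀ v < n, (S v).card ≤ d) (hpd : p * d ≤ L) (hq0 : 0 ≤ qmax)
    (hq : ∀ i, 1 ≤ i → i ≤ s → κ i * qmax ^ i ≤ 1 / 4)
    (hb : ∀ (R : ℕ → ℝ) (v : ℕ), v < n → (∀ x, 0 ≤ R x ∧ R x ≤ qmax) →
      (∀ x < v, 0 < R x → HypN S κ β s L R x) → HypN S κ β s L R v →
      4 * p * N S κ β s R v v ≤ qmax) :
    ∃ w : Finset ℕ → ℝ, (∀ I, 0 ≤ w I) ∧ (∀ I, w I ≠ 0 → ∀ v ∈ I, ∀ u ∈ I, v < n → u ∉ S v) ∧
      ∑ I ∈ (range n).powerset, w I = 1 ∧
      ∀ v < n, p / 2 ≤ ∑ I ∈ (range n).powerset, (if v ∈ I then w I else 0) := by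
  classical
  set W : Finset Item → ℝ := fun ω =>
    TW (iqq S κ β s L p n) (fun _ _ => 1) (U S s (range n)) ω with hW
  have hW0 : ∀ ω, 0 ≤ W ω := fun ω => TW_nonneg (iqq_loc hS) (fun _ _ _ _ => rfl)
    (fun i ω => (iqq_bounds hS hκ hβ0 hβ1 hp hq0 hq hb i ω).1)
    (fun i ω => (iqq_bounds hS hκ hβ0 hβ1 hp hq0 hq hb i ω).2)
    (fun _ _ => by norm_num) (fun _ _ => by norm_num) _ _
  let T : Finset Item → Finset ℕ := fun ω => (range n).filter fun v => (⟨v, 0, []⟩ : Item) ∈ ω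
  have hTs : ∀ ω, T ω ∈ (range n).powerset := fun ω =>
    Finset.mem_powerset.2 (Finset.filter_subset _ _)
  refine ⟨fun I => ∑ ω ∈ (U S s (range n)).powerset, (if T ω = I then W ω else 0),
    fun I => Finset.sum_nonneg fun ω _ => ?_, ?_, ?_, ?_⟩
  · split_ifs
    · exact hW0 ω
    · exact le_rfl
  · intro I hI v hv u hu hvn huv
    apply hI
    refine Finset.sum_eq_zero fun ω _ => ?_
    by_cases hT : T ω = I
    · rw [if_pos hT]
      subst hT
      exact indep hS hs hκ1 v u hvn huv ω (Finset.mem_filter.1 hv).2 (Finset.mem_filter.1 hu).2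
    · rw [if_neg hT]
  · rw [Finset.sum_comm]
    have h1 : ∀ ω ∈ (U S s (range n)).powerset,
        ∑ I ∈ (range n).powerset, (if T ω = I then W ω else 0) = W ω := by
      intro ω _
      rw [Finset.sum_ite_eq, if_pos (hTs ω)]
    rw [Finset.sum_congr rfl h1]
    exact TW_sum (iqq_loc hS) (fun _ _ _ _ => rfl)
      (fun i ω => (iqq_bounds hS hκ hβ0 hβ1 hp hq0 hq hb i ω).1)
      (fun i ω => (iqq_bounds hS hκ hβ0 hβ1 hp hq0 hq hb i ω).2)
      (fun _ _ => by norm_num) (fun _ _ => by norm_num) _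
  · intro v hv
    refine (hit hS hs hκ1 hκ hβ0 hβ1 hp hL hq0 hq hb v hv (hcard v hv) hpd).trans (le_of_eq ?_)
    have h1 : ∀ I ∈ (range n).powerset,
        (if v ∈ I then ∑ ω ∈ (U S s (range n)).powerset, (if T ω = I then W ω else 0) else 0) =
        ∑ ω ∈ (U S s (range n)).powerset, (if T ω = I then (if v ∈ I then W ω else 0) else 0) := by
      intro I _
      by_cases h : v ∈ I
      · simp only [if_pos h]
      · simp [if_neg h]
    rw [Finset.sum_congr rfl h1, Finset.sum_comm]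
    refine Finset.sum_congr rfl fun ω _ => ?_
    rw [Finset.sum_ite_eq, if_pos (hTs ω)]
    have : v ∈ T ω ↔ (⟨v, 0, []⟩ : Item) ∈ ω := by simp [T, hv]
    by_cases h : (⟨v, 0, []⟩ : Item) ∈ ω
    · rw [if_pos h, if_pos (this.2 h)]
    · rw [if_neg h, if_neg fun h' => h (this.1 h')]

end Helper36.Frac
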